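import Pool.Agent.P.MP_119182_lc.IT.Iface

/-! Step CLS. -/

set_option autoImplicit false

namespace Pool.Agent.P.MP_119182_lc.IT

open Finset
open scoped Classical
open NU (Run mr)

namespace CLSx

theorem bl_mono (σ : ℕ) : Monotone (bl σ) := fun _ _ h => Int.ediv_le_ediv (by positivity) h

theorem lt_of_bl {σ : ℕ} {a b : ℤ} (h : bl σ a < bl σ b) : a < b := by
  by_contra hn
  exact absurd (bl_mono σ (not_lt.1 hn)) (not_le.2 h)

theorem card_le_two {s : Finset ℤ} (h : ∀ a ∈ s, ∀ b ∈ s, ∀ c ∈ s, a < b → b < c → False) :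
    #s ≤ 2 := by
  by_contra hn
  obtain ⟨a, b, c, ha, hb, hc, h1, h2, h3⟩ := two_lt_card_iff.1 (not_le.1 hn)
  have k1 := h a ha b hb c hc
  have k2 := h a ha c hc b hb
  have k3 := h b hb a ha c hc
  have k4 := h b hb c hc a ha
  have k5 := h c hc a ha b hb
  have k6 := h c hc b hb a ha
  simp only [imp_false, not_lt] at k1 k2 k3 k4 k5 k6
  omega

end CLSx

open CLSx in
theorem p_CLS (hTWO : S_TWO) : S_CLS := by
  intro σ d Q hd t ht _
  set N := (d.U t).filter fun u => ¬ (∃ z ∈ Q t, d.x t < z ∧ z < d.rp t u) ∧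
    bl σ (d.lp (t + 1) u) ≠ bl σ (d.rp t u) with hN
  have hU : ∀ u ∈ d.U t, d.x t < u ∧ u < d.R ∧ u < d.rp t u ∧ d.lp (t + 1) u < u := fun u hu => by
    have h1 := mem_Ioo.1 (mem_filter.1 (mem_filter.1 hu).1).1
    exact ⟨h1.1, h1.2, ((hd.tree t ht.le).bnd u ((hd.step t ht).mem.1.trans h1.1) h1.2).2.2.1,
      (hTWO d hd t ht u hu).1.2.1⟩
  have h1 : #(d.U t) ≤ up d Q t + int σ d t + #N := by
    unfold up int
    refine le_trans (card_le_card fun u hu => ?_) ((card_union_le _ _).trans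
      (Nat.add_le_add_right (card_union_le _ _) _))
    simp only [hN, mem_union, mem_filter]
    by_contra h
    exact h (.inr ⟨hu, fun k => h (.inl (.inl ⟨hu, k⟩)), fun k => h (.inl (.inr ⟨hu, k⟩))⟩)
  have h2 : #N ≤ 2 * #(N.image (bl σ)) := by
    refine card_le_mul_card_image N 2 fun B _ => card_le_two fun a ha b hb c hc hab hbc => ?_
    obtain ⟨a1, a2⟩ := mem_filter.1 ha
    obtain ⟨b1, b2⟩ := mem_filter.1 hb
    obtain ⟨c1, c2⟩ := mem_filter.1 hc
    obtain ⟨a3, -⟩ := mem_filter.1 a1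
    obtain ⟨b3, -, b4⟩ := mem_filter.1 b1
    obtain ⟨c3, -⟩ := mem_filter.1 c1
    have k1 := (hTWO d hd t ht a a3).2.2.2 b b3 hab
    have k2 := (hTWO d hd t ht b b3).2.2.2 c c3 hbc
    have k3 := hU a a3
    have k4 := hU b b3
    have k5 := hU c c3
    have m1 := bl_mono σ (show a ≤ d.lp (t + 1) b by omega)
    have m2 := bl_mono σ (show d.lp (t + 1) b ≤ d.rp t b by omega)
    have m3 := bl_mono σ (show d.rp t b ≤ c by omega)
    omega
  have h3 : ∀ u ∈ N, bl σ u ∉ insert (bl σ (d.x t)) (own σ d Q t) →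
      ∃ z, bl σ z = bl σ u ∧ ∀ v ∈ N, v < z := by
    intro u hu hn
    obtain ⟨u1, u2, -⟩ := mem_filter.1 hu
    rw [mem_insert, not_or] at hn
    have k1 := hU u u1
    have k2 := bl_mono σ k1.1.le
    have k3 : ¬ conn (lv σ d.L d.R Q) t (bl σ (d.x t) + 1) (bl σ u) := fun h =>
      hn.2 (mem_filter.2 ⟨mem_image_of_mem _ u1, by omega, h⟩)
    obtain ⟨B, b1, b2, b3⟩ : ∃ B, bl σ (d.x t) + 1 ≤ B ∧ B ≤ bl σ u ∧ ¬ lv σ d.L d.R Q t B := by
      by_contra h
      exact k3 fun B b1 b2 => by_contra fun b3 => h ⟨B, b1, b2, b3⟩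
    have k4 := bl_mono σ (hd.step t ht).mem.1.le
    have k5 := bl_mono σ k1.2.1.le
    by_cases k6 : B < bl σ d.R
    · obtain ⟨z, z1, z2⟩ : ∃ z ∈ Q t, bl σ z = B := by
        by_contra h
        exact b3 ⟨by omega, k6, fun z z1 z2 => h ⟨z, z1, z2⟩⟩
      have z3 : d.x t < z := lt_of_bl (σ := σ) (by omega)
      have z4 : ∀ v ∈ N, v < z := fun v hv => by
        obtain ⟨v1, v2, -⟩ := mem_filter.1 hv
        exact (hU v v1).2.2.1.trans_le (not_lt.1 fun h => v2 ⟨z, z1, z3, h⟩)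
      have z5 := bl_mono σ (z4 u hu).le
      exact ⟨z, by omega, z4⟩
    · exact ⟨d.R, by omega, fun v hv => (hU v (mem_filter.1 hv).1).2.1⟩
  have h4 : #(N.image (bl σ) \ insert (bl σ (d.x t)) (own σ d Q t)) ≤ 1 := by
    refine card_le_one.2 fun a ha b hb => ?_
    obtain ⟨a1, a2⟩ := mem_sdiff.1 ha
    obtain ⟨b1, b2⟩ := mem_sdiff.1 hb
    obtain ⟨u, hu, rfl⟩ := mem_image.1 a1
    obtain ⟨v, hv, rfl⟩ := mem_image.1 b1
    obtain ⟨z, z1, z2⟩ := h3 u hu a2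
    obtain ⟨y, y1, y2⟩ := h3 v hv b2
    have m1 := bl_mono σ (z2 v hv).le
    have m2 := bl_mono σ (y2 u hu).le
    omega
  have h5 := le_card_sdiff (insert (bl σ (d.x t)) (own σ d Q t)) (N.image (bl σ))
  have h6 := card_insert_le (bl σ (d.x t)) (own σ d Q t)
  omega

end Pool.Agent.P.MP_119182_lc.IT
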