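import Pool.Agent.P.MP_119182_lc.IT.Iface

/-! Step DTH: last times, sides and labels of the lives. -/

set_option autoImplicit false

namespace Pool.Agent.P.MP_119182_lc.IT

open Finset
open scoped Classical

namespace DTHx

variable (m : ℕ) (l KL KR : ℕ → ℤ → Prop)

/-- The two items lie in one gap. -/
def E (t : ℕ) (B B' : ℤ) : Prop := conn l t B B' ∧ conn l t B' B

/-- The item survives the step. -/
def sv (t : ℕ) (B : ℤ) : Prop := l t B ∧ ¬ KL t B ∧ ¬ KR t B

/-- The life ends at this time. -/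
def D (t : ℕ) (B : ℤ) : Prop := m ≤ t + 1 ∨ KL t B ∨ KR t B

theorem exD (t : ℕ) (B : ℤ) : ∃ t', t ≤ t' ∧ D m KL KR t' B := ⟨t + m, by omega, Or.inl (by omega)⟩

/-- The last time. -/
noncomputable def dt (t : ℕ) (B : ℤ) : ℕ := Nat.find (exD m KL KR t B)

/-- The side. -/
def sd (t : ℕ) (B : ℤ) : Prop := m ≤ dt m KL KR t B + 1 ∨ KL (dt m KL KR t B) B

/-- The label. -/
noncomputable def lab : ℕ → ℤ → ℕ × ℤ
  | 0, B => (0, Classical.epsilon (E l 0 B))
  | t + 1, B =>
    if ∃ B', sv l KL KR t B' ∧ E l (t + 1) B B' then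
      lab t (Classical.epsilon fun B' => sv l KL KR t B' ∧ E l (t + 1) B B')
    else (t + 1, Classical.epsilon (E l (t + 1) B))

variable {m l KL KR}

theorem E.symm {t : ℕ} {B B' : ℤ} (h : E l t B B') : E l t B' B := ⟨h.2, h.1⟩

theorem E.trans {t : ℕ} {B B' B'' : ℤ} (h : E l t B B') (k : E l t B' B'') : E l t B B'' := by
  constructor
  · intro y h1 h2
    rcases le_total y B' with e | e
    exacts [h.1 y h1 e, k.1 y e h2]
  · intro y h1 h2
    rcases le_total y B' with e | e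
    exacts [k.2 y h1 e, h.2 y e h2]

theorem E_iff {t : ℕ} {B B' : ℤ} (h : B ≤ B') : E l t B B' ↔ conn l t B B' :=
  ⟨fun k => k.1, fun k => ⟨k, fun y h1 h2 => k y (h.trans h1) (h2.trans h)⟩⟩

theorem E_refl {t : ℕ} {B : ℤ} (h : l t B) : E l t B B :=
  (E_iff le_rfl).2 fun _ h1 h2 => le_antisymm h1 h2 ▸ h

theorem E.eq {t : ℕ} {B B' : ℤ} (h : E l t B B') : E l t B = E l t B' :=
  funext fun _ => propext ⟨h.symm.trans, h.trans⟩

theorem rep {t : ℕ} {B B' : ℤ} (h : l t B) (h' : l t B')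
    (e : Classical.epsilon (E l t B) = Classical.epsilon (E l t B')) : E l t B B' := by
  have h1 := Classical.epsilon_spec (p := E l t B) ⟨B, E_refl h⟩
  have h2 := Classical.epsilon_spec (p := E l t B') ⟨B', E_refl h'⟩
  rw [e] at h1
  exact h1.trans h2.symm

theorem con (K : Kill m l KL KR) {t : ℕ} (ht : t + 1 < m) {B B' : ℤ} (h : sv l KL KR t B)
    (h' : sv l KL KR t B') : E l t B B' ↔ E l (t + 1) B B' := by
  rcases le_total B B' with e | e
  · rw [E_iff e, E_iff e]
    exact K.con t B B' ht e h.1 h.2.1 h.2.2 h'.1 h'.2.1 h'.2.2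
  · have := K.con t B' B ht e h'.1 h'.2.1 h'.2.2 h.1 h.2.1 h.2.2
    rw [← E_iff e, ← E_iff e] at this
    exact ⟨fun k => (this.1 k.symm).symm, fun k => (this.2 k.symm).symm⟩

theorem lab_le (t : ℕ) : ∀ B, (lab l KL KR t B).1 ≤ t := by
  induction t with
  | zero => exact fun _ => le_rfl
  | succ t ih =>
    intro B
    rw [lab]
    split_ifs
    exacts [(ih _).trans (Nat.le_succ t), le_rfl]

theorem lab_eq {t : ℕ} {B B' : ℤ} (h : E l t B B') : lab l KL KR t B = lab l KL KR t B' := by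
  cases t with
  | zero => rw [lab, lab, h.eq]
  | succ t => rw [lab, lab, h.eq]

theorem of_lab (K : Kill m l KL KR) (t : ℕ) : t < m → ∀ B B', l t B → l t B' →
    lab l KL KR t B = lab l KL KR t B' → E l t B B' := by
  induction t with
  | zero => exact fun _ B B' h h' e => rep h h' (congrArg Prod.snd e)
  | succ t ih =>
    intro ht B B' h h' e
    rw [lab, lab] at e
    split_ifs at e with h1 h2 h2
    · have k1 := Classical.epsilon_spec h1
      have k2 := Classical.epsilon_spec h2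
      exact (k1.2.trans ((con K ht k1.1 k2.1).1
        (ih (by omega) _ _ k1.1.1 k2.1.1 e))).trans k2.2.symm
    · have := lab_le (l := l) (KL := KL) (KR := KR) t
        (Classical.epsilon fun B' => sv l KL KR t B' ∧ E l (t + 1) B B')
      rw [e] at this
      exact absurd this (Nat.not_succ_le_self t)
    · have := lab_le (l := l) (KL := KL) (KR := KR) t
        (Classical.epsilon fun B'' => sv l KL KR t B'' ∧ E l (t + 1) B' B'')
      rw [← e] at this
      exact absurd this (Nat.not_succ_le_self t)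
    · exact rep h h' (congrArg Prod.snd e)

theorem lab_succ (K : Kill m l KL KR) {t : ℕ} (ht : t + 1 < m) {B : ℤ} (h : sv l KL KR t B) :
    lab l KL KR (t + 1) B = lab l KL KR t B := by
  have h1 : ∃ B', sv l KL KR t B' ∧ E l (t + 1) B B' :=
    ⟨B, h, E_refl (K.sur t B ht h.1 h.2.1 h.2.2)⟩
  have k := Classical.epsilon_spec h1
  rw [lab, if_pos h1]
  exact lab_eq ((con K ht h k.1).2 k.2).symm

theorem le_dt (t : ℕ) (B : ℤ) : t ≤ dt m KL KR t B := (Nat.find_spec (exD m KL KR t B)).1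

theorem D_dt (t : ℕ) (B : ℤ) : D m KL KR (dt m KL KR t B) B := (Nat.find_spec (exD m KL KR t B)).2

theorem dt_le {t s : ℕ} {B : ℤ} (h : t ≤ s) (k : D m KL KR s B) : dt m KL KR t B ≤ s :=
  Nat.find_min' _ ⟨h, k⟩

theorem dt_lt {t : ℕ} (h : t < m) (B : ℤ) : dt m KL KR t B < m :=
  lt_of_le_of_lt (dt_le (s := m - 1) (by omega) (Or.inl (by omega))) (by omega)

theorem notD {t s : ℕ} {B : ℤ} (h : t ≤ s) (k : s < dt m KL KR t B) :
    s + 1 < m ∧ ¬ KL s B ∧ ¬ KR s B := by
  have h1 : ¬ D m KL KR s B := fun e => absurd (dt_le h e) (not_le.2 k)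
  exact ⟨not_le.1 fun e => h1 (Or.inl e), fun e => h1 (Or.inr (Or.inl e)),
    fun e => h1 (Or.inr (Or.inr e))⟩

theorem dt_eq {t s : ℕ} {B : ℤ} (h : t ≤ s) (k : s ≤ dt m KL KR t B) :
    dt m KL KR s B = dt m KL KR t B :=
  le_antisymm (dt_le k (D_dt t B)) (dt_le (h.trans (le_dt s B)) (D_dt s B))

theorem keep (K : Kill m l KL KR) {t : ℕ} {B : ℤ} (h : l t B) (s : ℕ) (hs : t ≤ s) :
    s ≤ dt m KL KR t B → l s B ∧ lab l KL KR s B = lab l KL KR t B := by
  induction s, hs using Nat.le_induction with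
  | base => exact fun _ => ⟨h, rfl⟩
  | succ s hs ih =>
    intro k
    obtain ⟨h1, h2⟩ := ih (by omega)
    obtain ⟨h3, h4, h5⟩ := notD hs k
    exact ⟨K.sur s B h3 h1 h4 h5, (lab_succ K h3 ⟨h1, h4, h5⟩).trans h2⟩

theorem stay (K : Kill m l KL KR) {t : ℕ} {B B' : ℤ} (e : B ≤ B') (h : conn l t B B') (s : ℕ)
    (hs : t ≤ s) : s ≤ dt m KL KR t B → s ≤ dt m KL KR t B' → conn l s B B' := by
  induction s, hs using Nat.le_induction with
  | base => exact fun _ _ => h
  | succ s hs ih =>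
    intro k k'
    have h1 := ih (by omega) (by omega)
    obtain ⟨h3, h4, h5⟩ := notD hs k
    obtain ⟨-, h6, h7⟩ := notD hs k'
    exact (K.con s B B' h3 e (h1 B le_rfl e) h4 h5 (h1 B' e le_rfl) h6 h7).1 h1

theorem left (K : Kill m l KL KR) {t : ℕ} (ht : t < m) {B B' : ℤ} (e : B ≤ B')
    (h : conn l t B B') (k : sd m KL KR t B') :
    sd m KL KR t B ∧ dt m KL KR t B ≤ dt m KL KR t B' := by
  have h0 := dt_lt (KL := KL) (KR := KR) ht B
  have h1 : dt m KL KR t B ≤ dt m KL KR t B' := by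
    by_contra hn
    have h2 : dt m KL KR t B' + 1 < m := by omega
    exact hn (dt_le (le_dt t B') (Or.inr (Or.inl (K.pre _ B B' h2 e
      (stay K e h _ (le_dt t B') (not_le.1 hn).le le_rfl) (k.resolve_left (not_le.2 h2))))))
  refine ⟨?_, h1⟩
  by_contra hn
  have h2 : dt m KL KR t B + 1 < m := not_le.1 fun e => hn (Or.inl e)
  have h3 := stay K e h _ (le_dt t B) le_rfl h1
  have h4 := ((D_dt t B).resolve_left (not_le.2 h2)).resolve_left fun e => hn (Or.inr e)
  have h5 := le_antisymm (dt_le (m := m) (KL := KL) (le_dt t B)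
    (Or.inr (Or.inr (K.suf _ B B' h2 e h3 h4)))) h1
  unfold sd at k
  rw [h5] at k
  exact hn (Or.inr (K.pre _ B B' h2 e h3 (k.resolve_left (not_le.2 h2))))

theorem right (K : Kill m l KL KR) {t : ℕ} (ht : t < m) {B B' : ℤ} (e : B ≤ B')
    (h : conn l t B B') (k : ¬ sd m KL KR t B) :
    ¬ sd m KL KR t B' ∧ dt m KL KR t B' ≤ dt m KL KR t B := by
  refine ⟨fun k' => k (left K ht e h k').1, ?_⟩
  by_contra hn
  have h2 : dt m KL KR t B + 1 < m := not_le.1 fun e => k (Or.inl e)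
  have h4 := ((D_dt t B).resolve_left (not_le.2 h2)).resolve_left fun e => k (Or.inr e)
  exact hn (dt_le (le_dt t B) (Or.inr (Or.inr (K.suf _ B B' h2 e
    (stay K e h _ (le_dt t B) le_rfl (not_le.1 hn).le) h4))))

end DTHx

open DTHx in
theorem p_DTH : S_DTH := by
  intro m b0 l KL KR _ K
  refine ⟨dt m KL KR, sd m KL KR, lab l KL KR, ⟨fun t ht B _ => ⟨le_dt t B, dt_lt ht B⟩,
    fun t _ t' B h h1 h2 => ⟨(keep K h t' h1 h2).1, dt_eq h1 h2, ?_, (keep K h t' h1 h2).2⟩,
    fun t ht B B' h h' e => ⟨fun k => (E_iff e).1 (of_lab K t ht B B' h h' k),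
      fun k => lab_eq ((E_iff e).2 k)⟩,
    fun t ht B B' e h k => left K ht e h k, fun t ht B B' e h k => right K ht e h k⟩,
    fun t B ht _ e => ?_⟩
  · unfold sd
    rw [dt_eq h1 h2]
  · have := D_dt (m := m) (KL := KL) (KR := KR) t B
    rw [e] at this
    exact this.resolve_left (not_le.2 ht)

end Pool.Agent.P.MP_119182_lc.IT
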