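import Pool.Agent.P.MP_119182_lc.IT.Iface

/-! Summing the frame bound over the labels. -/

set_option autoImplicit false

namespace Pool.Agent.P.MP_119182_lc.IT

open Finset
open scoped Classical

namespace EVx

theorem fib {α β : Type} (s : Finset α) (g : α → β) (Fs : Finset β) (a : β → Finset α)
    (h : ∀ F, ∀ x ∈ a F, x ∈ s ∧ g x = F) : ∑ F ∈ Fs, #(a F) ≤ #s :=
  (sum_le_sum fun F _ => card_le_card fun x hx => mem_filter.2 (h F x hx)).trans
    ((sum_card_fiberwise_eq_card_filter s Fs g).le.trans (card_filter_le _ _))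

end EVx

theorem p_EV (hIF : S_IF) (hFRAME : S_FRAME) : S_EV := by
  obtain ⟨C, hC⟩ := hIF
  refine ⟨C, fun K σ d Q dt sd lab κ hd hx hl => ?_⟩
  set Fs := (range d.m ×ˢ Ioo (bl σ d.L) (bl σ d.R)).image fun p => lab p.1 p.2 with hFs
  have ho : ∀ t, ∀ B ∈ ev σ d Q sd lab κ t, bl σ (d.x t) + 1 ≤ B ∧
      conn (lv σ d.L d.R Q) t (bl σ (d.x t) + 1) B := fun t B hB =>
    (mem_filter.1 (mem_filter.1 hB).1).2
  have h0 := sum_le_sum fun F (_ : F ∈ Fs) => hC K _ (hFRAME σ d Q dt sd lab F κ hd hx hl)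
  rw [sum_add_distrib, sum_add_distrib, ← mul_sum, ← mul_sum, ← mul_sum, ← mul_sum] at h0
  have h1 : ∑ t ∈ range d.m, #(ev σ d Q sd lab κ t) =
      ∑ F ∈ Fs, ∑ t ∈ range d.m, #((frame σ d Q sd dt lab F κ).ev t) := by
    rw [sum_comm]
    refine sum_congr rfl fun t ht => card_eq_sum_card_fiberwise fun B hB => ?_
    have := (ho t B hB).2 B (ho t B hB).1 le_rfl
    exact mem_image.2 ⟨(t, B), mem_product.2 ⟨ht, mem_Ioo.2 ⟨this.1, this.2.1⟩⟩, rfl⟩
  have h2 : ∑ F ∈ Fs, ∑ t ∈ range d.m, #((frame σ d Q sd dt lab F κ).met t) ≤ d.NR := by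
    rw [sum_comm]
    refine sum_le_sum fun t ht => (EVx.fib _ (lab t) Fs _ fun F B hB => ?_).trans
      (card_image_le (f := bl σ))
    simp only [frame, met, if_pos (mem_range.1 ht)] at hB
    exact ⟨(mem_filter.1 hB).1, (mem_filter.1 hB).2.2.2⟩
  have h3 : ∑ F ∈ Fs, #((range d.m).filter fun t =>
      ((frame σ d Q sd dt lab F κ).ev t).Nonempty) ≤ d.m := by
    refine (EVx.fib (range d.m) (fun t => lab t (bl σ (d.x t) + 1)) Fs _ fun F t ht => ?_).trans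
      (card_range _).le
    obtain ⟨ht, B, hB⟩ := mem_filter.1 ht
    obtain ⟨hB, e⟩ := mem_filter.1 hB
    obtain ⟨e1, e2⟩ := ho t B hB
    exact ⟨ht, ((hl.gap t (mem_range.1 ht) _ _ (e2 _ le_rfl e1) (e2 _ e1 le_rfl) e1).2 e2).trans e⟩
  have h4 : ∑ F ∈ Fs, (frame σ d Q sd dt lab F κ).inst ≤ inst σ d Q dt := by
    refine EVx.fib _ (fun p => lab p.1 p.2) Fs _ fun F p hp => ?_
    obtain ⟨h, e, e'⟩ := mem_filter.1 hp
    exact ⟨mem_filter.2 ⟨h, e.2.1, e'⟩, e.2.2.2⟩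
  rw [h1]
  refine h0.trans (add_le_add (add_le_add ?_ ?_) ?_) <;> apply Nat.mul_le_mul_left <;> assumption

end Pool.Agent.P.MP_119182_lc.IT
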