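import Pool.Agent.P.MP_119182_lc.IT.Iface

/-! Step FRAME. -/

set_option autoImplicit false

namespace Pool.Agent.P.MP_119182_lc.IT

open Finset
open scoped Classical
open NU (Run mr)

namespace FRAMEx

variable {σ : ℕ} {d : Run}

theorem bl_mono (σ : ℕ) : Monotone (bl σ) := fun _ _ h => Int.ediv_le_ediv (by positivity) h

theorem lt_of_bl {a b : ℤ} (h : bl σ a < bl σ b) : a < b := by
  by_contra hn
  exact absurd (bl_mono σ (not_lt.1 hn)) (not_le.2 h)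

theorem mem_P {t : ℕ} {y : ℤ} : y ∈ d.P t ↔ (d.x t < y ∧ y < d.R) ∧ d.lp t y < d.x t := by
  simp only [Run.P, mem_filter, mem_Ioo]

theorem frozen (hd : d.OK) {y B0 B1 : ℤ} {a b : ℕ} (hab : a ≤ b) (hb : b ≤ d.m) (hL : d.L < y)
    (hR : y < d.R) (h0 : B0 ≤ bl σ (d.lp a y)) (h1 : bl σ (d.rp a y) ≤ B1)
    (hx : ∀ s, a ≤ s → s < b → bl σ (d.x s) < B0 ∨ B1 < bl σ (d.x s)) :
    d.lp b y = d.lp a y ∧ d.rp b y = d.rp a y := by
  induction b, hab using Nat.le_induction with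
  | base => exact ⟨rfl, rfl⟩
  | succ b hab ih =>
    obtain ⟨e1, e2⟩ := ih (by omega) fun s h1 h2 => hx s h1 (by omega)
    have k1 := (hd.tree b (by omega)).bnd y hL hR
    have k2 : d.x b < d.lp a y ∨ d.rp a y < d.x b :=
      (hx b hab (by omega)).imp (fun h => lt_of_bl (h.trans_le h0)) fun h => lt_of_bl (h1.trans_lt h)
    have k3 := (hd.step b (by omega)).off y hL hR (by omega) (by omega)
    omega

theorem nopath (hd : d.OK) {y B0 B1 : ℤ} {a b : ℕ} (hab : a ≤ b) (hb : b < d.m)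
    (h0 : B0 ≤ bl σ (d.lp a y)) (h1 : bl σ (d.rp a y) ≤ B1)
    (hx : ∀ s, a ≤ s → s ≤ b → bl σ (d.x s) < B0 ∨ B1 < bl σ (d.x s)) : y ∉ d.P b := by
  intro hy
  obtain ⟨⟨a1, a2⟩, a3⟩ := mem_P.1 hy
  have hL : d.L < y := (hd.step b hb).mem.1.trans a1
  obtain ⟨e1, e2⟩ := frozen hd hab hb.le hL a2 h0 h1 fun s s1 s2 => hx s s1 s2.le
  have k1 := (hd.tree b hb.le).bnd y hL a2
  have k2 : d.x b < d.lp a y ∨ d.rp a y < d.x b :=
    (hx b hab le_rfl).imp (fun h => lt_of_bl (h.trans_le h0)) fun h => lt_of_bl (h1.trans_lt h)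
  omega

theorem above (hd : d.OK) {t : ℕ} (ht : t < d.m) {p y : ℤ} (hp : p ∈ d.P t) (h : p < y)
    (hR : y < d.R) (hy : y ∉ d.P t) : p ≤ d.lp t y := by
  obtain ⟨⟨a1, a2⟩, a3⟩ := mem_P.1 hp
  have hL := (hd.step t ht).mem.1
  by_contra hn
  have := (hd.tree t ht.le).lamL y p (by omega) hR (by omega) h
  exact hy (mem_P.2 ⟨⟨by omega, hR⟩, by omega⟩)

theorem below (hd : d.OK) {t : ℕ} (ht : t < d.m) {p y : ℤ} (hp : p ∈ d.P t) (h : y < p)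
    (hx : d.x t < y) : d.rp t y ≤ p := by
  obtain ⟨⟨a1, a2⟩, a3⟩ := mem_P.1 hp
  have hL := (hd.step t ht).mem.1
  exact ((hd.tree t ht.le).lamL p y (by omega) a2 (by omega) h).2

theorem rise (hd : d.OK) {q : ℕ} (hq : q < d.m) {y : ℤ} (hL : d.L < y) (hR : y < d.R)
    (hx : y ≠ d.x q) (h : d.rp q y < d.rp (q + 1) y) : y ∈ d.P q := by
  have s := hd.step q hq
  by_cases hp : d.lp q y < d.x q ∧ d.x q < d.rp q y
  · rcases lt_or_gt_of_ne hx with k | k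
    · exfalso
      by_cases e : d.rp (q + 1) y = d.x q
      · omega
      · have := s.losL y hL k hp.2 e
        omega
    · exact mem_P.2 ⟨⟨k, hR⟩, hp.1⟩
  · have := s.off y hL hR hx hp
    omega

theorem exists_rise (r : ℕ → ℤ) {z t : ℕ} (h : z ≤ t) (hr : r z < r t) :
    ∃ q, z ≤ q ∧ q < t ∧ r q < r (q + 1) := by
  induction t, h using Nat.le_induction with
  | base => exact absurd hr (lt_irrefl _)
  | succ b hab ih =>
    by_cases k : r b < r (b + 1)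
    · exact ⟨b, hab, Nat.lt_succ_self b, k⟩
    · obtain ⟨q, q1, q2, q3⟩ := ih (by omega)
      exact ⟨q, q1, by omega, q3⟩

variable {Q : ℕ → Finset ℤ} {dt : ℕ → ℤ → ℕ} {sd : ℕ → ℤ → Prop} {lab : ℕ → ℤ → ℕ × ℤ}
  {F : ℕ × ℤ}

/-- Alive in the frame. -/
def al (σ : ℕ) (d : Run) (Q : ℕ → Finset ℤ) (sd : ℕ → ℤ → Prop) (lab : ℕ → ℤ → ℕ × ℤ)
    (F : ℕ × ℤ) (t : ℕ) (B : ℤ) : Prop :=
  t < d.m ∧ lv σ d.L d.R Q t B ∧ sd t B ∧ lab t B = F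

theorem mem_met {t : ℕ} {B : ℤ} : B ∈ met σ d Q sd lab F t ↔
    (∃ y ∈ d.P t, bl σ y = B) ∧ al σ d Q sd lab F t B := by
  unfold met al
  split_ifs with h
  · simp only [mem_filter, mem_image, h, true_and]
  · simp only [notMem_empty, h, false_and, and_false]

theorem al_keep (hl : Lives d.m (lv σ d.L d.R Q) dt sd lab) {t t' : ℕ} {B : ℤ}
    (h : al σ d Q sd lab F t B) (h1 : t ≤ t') (h2 : t' ≤ dt t B) :
    al σ d Q sd lab F t' B ∧ dt t' B = dt t B := by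
  obtain ⟨a1, a2, a3, a4⟩ := h
  obtain ⟨b1, b2, b3, b4⟩ := hl.keep t a1 t' B a2 h1 h2
  exact ⟨⟨h2.trans_lt (hl.rng t a1 B a2).2, b1, b3.2 a3, b4.trans a4⟩, b2⟩

theorem al_mono (hl : Lives d.m (lv σ d.L d.R Q) dt sd lab) {t : ℕ} {B B' : ℤ}
    (h : al σ d Q sd lab F t B) (h' : al σ d Q sd lab F t B') (hB : B ≤ B') :
    dt t B ≤ dt t B' :=
  (hl.left t h.1 B B' hB ((hl.gap t h.1 B B' h.2.1 h'.2.1 hB).1 (h.2.2.2.trans h'.2.2.2.symm))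
    h'.2.2.1).2

theorem al_cvx (hl : Lives d.m (lv σ d.L d.R Q) dt sd lab) {t : ℕ} {B B' B'' : ℤ}
    (h : al σ d Q sd lab F t B) (h' : al σ d Q sd lab F t B'') (h1 : B ≤ B') (h2 : B' ≤ B'') :
    al σ d Q sd lab F t B' := by
  have c := (hl.gap t h.1 B B'' h.2.1 h'.2.1 (h1.trans h2)).1 (h.2.2.2.trans h'.2.2.2.symm)
  have c' : conn (lv σ d.L d.R Q) t B' B'' := fun C k1 k2 => c C (h1.trans k1) k2
  have l := c B' h1 h2
  exact ⟨h.1, l, (hl.left t h.1 B' B'' h2 c' h'.2.2.1).1,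
    ((hl.gap t h.1 B' B'' l h'.2.1 h2).2 c').trans h'.2.2.2⟩

theorem quiet (hQ : ∀ i < d.m, d.x i ∈ Q i) (hl : Lives d.m (lv σ d.L d.R Q) dt sd lab)
    {t s : ℕ} {B0 B1 : ℤ} (h0 : al σ d Q sd lab F t B0) (h1 : al σ d Q sd lab F t B1)
    (s1 : t ≤ s) (s2 : s ≤ dt t B0) : bl σ (d.x s) < B0 ∨ B1 < bl σ (d.x s) := by
  by_contra hn
  push Not at hn
  have a := al_cvx hl h0 h1 hn.1 hn.2
  have b := (al_keep hl a s1 (s2.trans (al_mono hl h0 a hn.1))).1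
  exact b.2.1.2.2 _ (hQ s b.1) rfl

theorem stay (hd : d.OK) (hQ : ∀ i < d.m, d.x i ∈ Q i)
    (hl : Lives d.m (lv σ d.L d.R Q) dt sd lab) {t t' : ℕ} {B0 B1 y : ℤ}
    (h0 : B0 ∈ met σ d Q sd lab F t) (h1 : B1 ∈ met σ d Q sd lab F t) (hy : y ∈ d.P t')
    (k0 : B0 < bl σ y) (k1 : bl σ y < B1) (htt : t ≤ t') (hdt : t' ≤ dt t B0) : y ∈ d.P t := by
  obtain ⟨⟨p0, a1, rfl⟩, a2⟩ := mem_met.1 h0
  obtain ⟨⟨p1, b1, rfl⟩, b2⟩ := mem_met.1 h1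
  by_contra hn
  have c0 := lt_of_bl k0
  have c1 := lt_of_bl k1
  have e0 := above hd a2.1 a1 c0 (mem_P.1 hy).1.2 hn
  have e1 := below hd a2.1 b1 c1 ((mem_P.1 a1).1.1.trans c0)
  exact nopath hd htt (al_keep hl a2 htt hdt).1.1 (bl_mono σ e0) (bl_mono σ e1)
    (fun s s1 s2 => quiet hQ hl a2 b2 s1 (s2.trans hdt)) hy

end FRAMEx

open FRAMEx in
theorem p_FRAME (hTWO : S_TWO) : S_FRAME := by
  intro σ d Q dt sd lab F κ hd hQ hl
  have hev : ∀ t B, B ∈ (frame σ d Q sd dt lab F κ).ev t →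
      (∃ u ∈ d.U t, bl σ u = B) ∧ B ∈ met σ d Q sd lab F t ∧
      #((d.P t).filter fun y => bl σ y = B) = κ ∧
      (∃ B0 ∈ met σ d Q sd lab F t, B0 < B) ∧ ∃ B1 ∈ met σ d Q sd lab F t, B < B1 := by
    intro t B hB
    obtain ⟨h1, h2⟩ := mem_filter.1 hB
    obtain ⟨h3, h4, h5, h6, h7⟩ := mem_filter.1 h1
    obtain ⟨h8, h9, h10⟩ := mem_filter.1 h3
    rw [h2] at h6 h7
    obtain ⟨u, hu, e⟩ := mem_image.1 h8
    obtain ⟨B0, k0, k1⟩ := h6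
    exact ⟨⟨u, hu, e⟩, mem_met.2 ⟨⟨u, (mem_filter.1 hu).1, e⟩, (mem_met.1 k0).2.1,
      h10 B (by omega) le_rfl, h4, h2⟩, h5, ⟨B0, k0, k1⟩, h7⟩
  refine ⟨fun t B h => ?_, fun t t' B h => al_keep hl h, fun t B B' h h' => al_mono hl h h',
    fun t B B' B'' h h' => al_cvx hl h h', fun t B h => (mem_met.1 h).2,
    fun t B h => ⟨(hev t B h).2.1, (hev t B h).2.2.2.1⟩, ?_, ?_, ?_⟩
  · obtain ⟨a1, a2, -, -⟩ := h
    exact ⟨(hl.rng t a1 B a2).1, (hl.rng t a1 B a2).2, a2.1, a2.2.1⟩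
  · intro t t' B0 h0 B1 h1 B hB k0 k1 htt hdt
    obtain ⟨⟨y, hy, rfl⟩, -⟩ := mem_met.1 hB
    exact mem_met.2 ⟨⟨y, stay hd hQ hl h0 h1 hy k0 k1 htt.le hdt, rfl⟩,
      al_cvx hl (mem_met.1 h0).2 (mem_met.1 h1).2 k0.le k1.le⟩
  · intro t t' B hB hB' B0 h0 k0 _ htt
    by_contra hn
    have hdt : t' ≤ dt t B0 := not_lt.1 hn
    obtain ⟨⟨u, hu, rfl⟩, -, c1, -, B1, h1, k1⟩ := hev t _ hB
    obtain ⟨-, -, c2, -⟩ := hev t' _ hB'
    obtain ⟨⟨p0, a1, rfl⟩, a2⟩ := mem_met.1 h0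
    obtain ⟨⟨p1, b1, rfl⟩, b2⟩ := mem_met.1 h1
    obtain ⟨⟨-, -, t1⟩, t2, ⟨-, t3, -⟩, -⟩ := hTWO d hd t a2.1 u hu
    have hu' : u ∉ d.P t' := nopath hd (a := t + 1) htt (al_keep hl a2 htt.le hdt).1.1
      (bl_mono σ (t1 p0 a1 (lt_of_bl k0))) (bl_mono σ (t3 ▸ t2 p1 b1 (lt_of_bl k1)))
      fun s s1 s2 => quiet hQ hl a2 b2 (by omega) (s2.trans hdt)
    have hlt : #((d.P t').filter fun y => bl σ y = bl σ u) <
        #((d.P t).filter fun y => bl σ y = bl σ u) := by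
      refine card_lt_card ⟨fun y hy => ?_, fun hs => ?_⟩
      · obtain ⟨y1, y2⟩ := mem_filter.1 hy
        exact mem_filter.2 ⟨stay hd hQ hl h0 h1 y1 (y2 ▸ k0) (y2 ▸ k1) htt.le hdt, y2⟩
      · exact hu' (mem_filter.1 (hs (mem_filter.2 ⟨(mem_filter.1 hu).1, rfl⟩))).1
    omega
  · intro z t t' B1 h1 B0 h0 B hB hzt htt k0 k1 d0 d1 hz dz hn
    change t' ≤ dt t B0 at d0
    change t' ≤ dt z B1 at d1
    change t' ≤ dt z B at dz
    change al σ d Q sd lab F z B at hz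
    obtain ⟨⟨y, hy, rfl⟩, y2⟩ := mem_met.1 hB
    obtain ⟨⟨p0, a1, rfl⟩, a2⟩ := mem_met.1 h0
    obtain ⟨⟨p1, b1, rfl⟩, b2⟩ := mem_met.1 h1
    have hR := (mem_P.1 hy).1.2
    have hL : d.L < y := (hd.step t' y2.1).mem.1.trans (mem_P.1 hy).1.1
    have c1 := lt_of_bl k1
    have hxz : d.x z < y := by
      rcases quiet hQ hl hz b2 le_rfl (by omega) with h | h
      · exact lt_of_bl h
      · exact absurd (lt_of_bl h) (not_lt.2 (mem_P.1 b1).1.1.le)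
    have e1 := below hd hz.1 b1 c1 hxz
    have hyt : y ∉ d.P t := fun h =>
      hn (mem_met.2 ⟨⟨y, h, rfl⟩, (al_keep hl hz hzt.le (by omega)).1⟩)
    have e0 := above hd a2.1 a1 (lt_of_bl k0) hR hyt
    have e2 : bl σ p1 < bl σ (d.rp t y) := by
      by_contra h
      exact nopath hd htt.le y2.1 (bl_mono σ e0) (not_lt.1 h)
        (fun s s1 s2 => quiet hQ hl a2 (al_keep hl b2 hzt.le (by omega)).1 s1 (s2.trans d0)) hy
    obtain ⟨q, q1, q2, q3⟩ := exists_rise (fun s => d.rp s y) hzt.le (e1.trans_lt (lt_of_bl e2))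
    have aq := (al_keep hl hz q1 (by omega)).1
    exact ⟨q, q1, q2, mem_met.2 ⟨⟨y, rise hd aq.1 hL hR
      (fun e => aq.2.1.2.2 _ (hQ q aq.1) (by rw [e])) q3, rfl⟩, aq⟩⟩

end Pool.Agent.P.MP_119182_lc.IT
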