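import Pool.Agent.P.MP_119182_lc.IT.Iface

/-! Step LAZY. -/

set_option autoImplicit false

namespace Pool.Agent.P.MP_119182_lc.IT

open Finset
open scoped Classical
open NU (Run mr)

namespace LAZYx

theorem step (c : ℕ) (S T : Finset ℤ) : ∃ S' : Finset ℤ, T ⊆ S → #S ≤ c + 1 → #T ≤ c →
    T ⊆ S' ∧ S' ⊆ S ∧ #S' ≤ c ∧ #(S \ S') ≤ 1 := by
  by_cases h : #S ≤ c
  · exact ⟨S, fun h1 _ _ => ⟨h1, Subset.rfl, h, by simp⟩⟩
  by_cases h' : #T ≤ c
  · obtain ⟨y, h1, h2⟩ := exists_mem_notMem_of_card_lt_card (show #T < #S by omega)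
    refine ⟨S.erase y, fun k1 k2 _ => ⟨subset_erase.2 ⟨k1, h2⟩, erase_subset _ _, ?_, ?_⟩⟩
    · rw [card_erase_of_mem h1]
      omega
    · rw [sdiff_erase_self h1, card_singleton]
  · exact ⟨S, fun _ _ k => absurd k h'⟩

end LAZYx

theorem p_LAZY : S_LAZY := by
  intro L R m x c Z Q h
  obtain ⟨del, hd1, hd2⟩ := h.near
  constructor
  · choose nx hnx using LAZYx.step c
    let Q' : ℕ → Finset ℤ := fun i =>
      Nat.rec (Q 0) (fun i S => nx (insert (x (i + 1)) S) (Q (i + 1))) i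
    have st : ∀ i, i + 1 < m → Q i ⊆ Q' i → #(Q' i) ≤ c → Q (i + 1) ⊆ Q' (i + 1) ∧
        Q' (i + 1) ⊆ insert (x (i + 1)) (Q' i) ∧ #(Q' (i + 1)) ≤ c ∧
        #(insert (x (i + 1)) (Q' i) \ Q' (i + 1)) ≤ 1 := fun i hi h1 h2 =>
      hnx _ _ ((h.sub i hi).trans (insert_subset_insert _ h1))
        ((card_insert_le _ _).trans (Nat.succ_le_succ h2)) (h.card _ hi)
    have inv : ∀ i < m, Q i ⊆ Q' i ∧ #(Q' i) ≤ c ∧ ∀ z ∈ Q' i, L < z ∧ z < R := by
      intro i
      induction i with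
      | zero => exact fun hi => ⟨Subset.rfl, h.card 0 hi, h.mem 0 hi⟩
      | succ i ih =>
        intro hi
        obtain ⟨a1, a2, a3⟩ := ih (by omega)
        obtain ⟨b1, b2, b3, -⟩ := st i hi a1 a2
        refine ⟨b1, b3, fun z hz => ?_⟩
        rcases mem_insert.1 (b2 hz) with rfl | k
        · exact h.mem _ hi _ (h.own _ hi)
        · exact a3 z k
    refine ⟨Q', ⟨fun i hi => (inv i hi).2.1, fun i hi => (inv i hi).2.2,
      fun i hi => (inv i hi).1 (h.own i hi),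
      fun i hi => (st i hi (inv i (by omega)).1 (inv i (by omega)).2.1).2.1, del, hd1,
      fun i hi => ?_⟩, fun i hi => (st i hi (inv i (by omega)).1 (inv i (by omega)).2.1).2.2.2⟩
    obtain ⟨z, h1, h2⟩ := hd2 i hi
    exact ⟨z, (inv i (by omega)).1 h1, h2⟩
  · refine ⟨fun i hi => card_image_le.trans (h.card i hi), fun i hi z hz => ?_,
      fun i hi => mem_image_of_mem _ (h.own i hi), fun i hi => ?_, del, hd1, fun i hi => ?_⟩
    · obtain ⟨y, h1, rfl⟩ := mem_image.1 hz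
      have := h.mem i hi y h1
      unfold mr
      omega
    · rw [mq, mq, ← image_insert]
      exact image_subset_image (h.sub i hi)
    · obtain ⟨z, h1, h2⟩ := hd2 i hi
      refine ⟨mr z, mem_image_of_mem _ h1, ?_⟩
      rw [show mr (x (i + 1)) - mr z = -(x (i + 1) - z) by unfold mr; ring, abs_neg]
      exact h2

end Pool.Agent.P.MP_119182_lc.IT
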