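import Pool.Agent.P.MP_119182_lc.IT.Iface

/-! Own items that die from the left. -/

set_option autoImplicit false

namespace Pool.Agent.P.MP_119182_lc.IT

open Finset
open scoped Classical
open NU (Run mr)

namespace LEFTx

theorem mid (O : Finset ℤ) :
    #O ≤ 2 + #(O.filter fun B => (∃ B0 ∈ O, B0 < B) ∧ ∃ B1 ∈ O, B < B1) := by
  rcases O.eq_empty_or_nonempty with h | h
  · simp [h]
  · have hsub : O ⊆ insert (O.min' h) (insert (O.max' h)
        (O.filter fun B => (∃ B0 ∈ O, B0 < B) ∧ ∃ B1 ∈ O, B < B1)) := by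
      intro B hB
      rcases (O.min'_le B hB).eq_or_lt with h1 | h1
      · exact mem_insert.2 (Or.inl h1.symm)
      · rcases (O.le_max' B hB).eq_or_lt with h2 | h2
        · exact mem_insert_of_mem (mem_insert.2 (Or.inl h2))
        · exact mem_insert_of_mem (mem_insert_of_mem
            (mem_filter.2 ⟨hB, ⟨_, O.min'_mem h, h1⟩, ⟨_, O.max'_mem h, h2⟩⟩))
    have h1 := (card_le_card hsub).trans (card_insert_le _ _)
    have h2 := card_insert_le (O.max' h)
      (O.filter fun B => (∃ B0 ∈ O, B0 < B) ∧ ∃ B1 ∈ O, B < B1)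
    omega

theorem heavy (K : ℕ) (O P : Finset ℤ) (g : ℤ → ℤ) :
    K * #(O.filter fun B => K ≤ #(P.filter fun y => g y = B)) ≤ #P := by
  have h1 := card_nsmul_le_sum (O.filter fun B => K ≤ #(P.filter fun y => g y = B))
    (fun B => #(P.filter fun y => g y = B)) K (fun B hB => (mem_filter.1 hB).2)
  rw [sum_card_fiberwise_eq_card_filter, smul_eq_mul, mul_comm] at h1
  exact h1.trans (card_filter_le _ _)

theorem one (K σ : ℕ) (d : Run) (Q : ℕ → Finset ℤ) (dt : ℕ → ℤ → ℕ)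
    (sd : ℕ → ℤ → Prop) (lab : ℕ → ℤ → ℕ × ℤ) (hL : Lives d.m (lv σ d.L d.R Q) dt sd lab)
    (t : ℕ) (ht : t < d.m) :
    K * #((own σ d Q t).filter fun B => sd t B) ≤
      2 * K + #(d.P t) + K * ∑ κ ∈ range K, #(ev σ d Q sd lab κ t) := by
  obtain ⟨O, hO⟩ : ∃ O, O = (own σ d Q t).filter fun B => sd t B := ⟨_, rfl⟩
  have hmem : ∀ B ∈ O, B ∈ own σ d Q t ∧ sd t B := fun B hB => mem_filter.1 (hO ▸ hB)
  have hlab : ∀ B ∈ O, lv σ d.L d.R Q t B ∧ lab t (bl σ (d.x t) + 1) = lab t B := by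
    intro B hB
    obtain ⟨_, h1, h2⟩ := mem_filter.1 (hmem B hB).1
    have hB1 : bl σ (d.x t) + 1 ≤ B := h1
    exact ⟨h2 B hB1 le_rfl,
      (hL.gap t ht _ _ (h2 _ le_rfl hB1) (h2 B hB1 le_rfl) hB1).2 h2⟩
  have hmet : ∀ B ∈ O, ∀ B' ∈ O, B' ∈ met σ d Q sd lab (lab t B) t := by
    intro B hB B' hB'
    unfold met
    rw [if_pos ht]
    refine mem_filter.2 ⟨?_, (hlab B' hB').1, (hmem B' hB').2,
      (hlab B' hB').2.symm.trans (hlab B hB).2⟩
    exact image_subset_image (filter_subset _ _) (mem_filter.1 (hmem B' hB').1).1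
  have hsub : (O.filter fun B => (∃ B0 ∈ O, B0 < B) ∧ ∃ B1 ∈ O, B < B1) ⊆
      (O.filter fun B => K ≤ #((d.P t).filter fun y => bl σ y = B)) ∪
        (range K).biUnion fun κ => ev σ d Q sd lab κ t := by
    intro B hB
    obtain ⟨hB1, ⟨B0, h0, h0'⟩, B1, h1, h1'⟩ := mem_filter.1 hB
    rcases le_or_gt K #((d.P t).filter fun y => bl σ y = B) with h | h
    · exact mem_union_left _ (mem_filter.2 ⟨hB1, h⟩)
    · refine mem_union_right _ (mem_biUnion.2 ⟨_, mem_range.2 h, ?_⟩)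
      exact mem_filter.2 ⟨(hmem B hB1).1, (hmem B hB1).2, rfl,
        ⟨B0, hmet B hB1 B0 h0, h0'⟩, B1, hmet B hB1 B1 h1, h1'⟩
  have h1 := (card_le_card hsub).trans ((card_union_le _ _).trans
    (Nat.add_le_add_left card_biUnion_le _))
  have h2 := mid O
  have h3 := heavy K O (d.P t) (bl σ)
  have h4 : #O ≤ 2 + (#(O.filter fun B => K ≤ #((d.P t).filter fun y => bl σ y = B)) +
      ∑ κ ∈ range K, #(ev σ d Q sd lab κ t)) := by omega
  have h5 := Nat.mul_le_mul_left K h4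
  rw [mul_add, mul_add] at h5
  rw [← hO]
  omega

end LEFTx

theorem p_LEFT (hEV : S_EV) : S_LEFT := by
  obtain ⟨C, hC⟩ := hEV
  intro K
  refine ⟨2 * K + 2 * K ^ 2 + C * (K ^ 2 + 1) ^ 6, ?_⟩
  intro σ d Q dt sd lab hd hx hL
  rcases Nat.eq_zero_or_pos K with h0 | h0
  · simp [h0]
  have h1 := sum_le_sum fun t (ht : t ∈ range d.m) =>
    LEFTx.one K σ d Q dt sd lab hL t (mem_range.1 ht)
  rw [← mul_sum, sum_add_distrib, sum_add_distrib, ← mul_sum (range d.m) _ K, sum_comm, sum_const,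
    card_range, smul_eq_mul] at h1
  have h2 := sum_le_sum fun κ (_ : κ ∈ range K) => hC (K ^ 2) σ d Q dt sd lab κ hd hx hL
  rw [← mul_sum, sum_const, card_range, smul_eq_mul, pow_two K, mul_assoc K K] at h2
  have h3 := Nat.le_of_mul_le_mul_left h2 h0
  have hN : d.NR = ∑ t ∈ range d.m, #(d.P t) := rfl
  rw [← hN] at h1
  rw [pow_two K]
  obtain ⟨D, hD⟩ : ∃ D, D = C * (K * K + 1) ^ 6 := ⟨_, rfl⟩
  rw [← hD] at h3 ⊢
  have h4 : (2 * K + 2 * (K * K) + D) * (d.m + inst σ d Q dt) =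
      d.m * (2 * K) + 2 * (K * K) * d.m + D * inst σ d Q dt +
        (D * d.m + (2 * K + 2 * (K * K)) * inst σ d Q dt) := by ring
  omega

end Pool.Agent.P.MP_119182_lc.IT
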