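import Pool.Agent.P.MP_119182_lc.IT.Iface

/-! Step CM. -/

set_option autoImplicit false

namespace Pool.Agent.P.MP_119182_lc.IT

open Finset
open scoped Classical

namespace CMx

/-- The frame with time stretched by the factor `W`. -/
noncomputable def str (c : CO.Core) (Z : ℕ → Finset ℤ) (W : ℕ) : CO.Core where
  A := c.A.image (· * W)
  x := fun τ => c.x (τ / W)
  P := fun τ => c.P (τ / W)
  r := fun τ => c.r (τ / W)
  U := fun τ => if W ∣ τ then c.U (τ / W) else ∅
  lo := fun τ => c.lo (τ / W)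
  Zs := c.A.biUnion fun q => (range #(Z q)).image (q * W + ·)
  lf := fun τ => (Z (τ / W)).toList.getD (τ % W) 0

variable {c : CO.Core} {Z : ℕ → Finset ℤ} {W : ℕ}

theorem memU {τ : ℕ} {u : ℤ} (h : u ∈ (str c Z W).U τ) : W ∣ τ ∧ u ∈ c.U (τ / W) := by
  simp only [str] at h
  split_ifs at h with k
  · exact ⟨k, h⟩
  · simp at h

theorem ok (h : OKM c Z) (hW : ∀ q ∈ c.A, #(Z q) < W) (W0 : 0 < W) : (str c Z W).OK := by
  have lt : ∀ {t t' : ℕ}, W ∣ t' → t < t' → t / W < t' / W := fun k h =>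
    Nat.div_lt_div_of_lt_of_dvd k h
  refine ⟨fun _ _ k => h.mono (Nat.div_le_div_right k), fun t => h.le _,
    fun t u hu => h.lk _ u (memU hu).2, fun t u hu v hv => h.same _ u (memU hu).2 v (memU hv).2,
    fun t t' u hu v hv k => h.frU _ _ u (memU hu).2 v (memU hv).2 (lt (memU hv).1 k),
    fun t t' u hu v hv k => h.frL _ _ u (memU hu).2 v (memU hv).2 (lt (memU hv).1 k),
    fun t t' u hu v hv k => h.on _ _ u (memU hu).2 v (memU hv).2 (lt (memU hv).1 k),
    fun z t t' u hu v hv k k' k1 ⟨w, hw⟩ k2 k3 => ?_⟩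
  obtain ⟨q, q0, q1, q2, q3⟩ := h.hid _ _ _ u (memU hu).2 v (memU hv).2 (lt (memU hu).1 k)
    (lt (memU hv).1 k') k1 ⟨w, (memU hw).2⟩ k2 k3
  obtain ⟨i, hi, e⟩ := List.getElem_of_mem (mem_toList.2 q3)
  rw [length_toList] at hi
  have iW := hi.trans (hW q q0)
  refine ⟨q * W + i, mem_biUnion.2 ⟨q, q0, mem_image.2 ⟨i, mem_range.2 hi, rfl⟩⟩, ?_, ?_, ?_⟩
  · have := Nat.mul_le_mul_right W q1
    rw [Nat.div_mul_cancel (memU hw).1] at this
    omega
  · have := Nat.mul_le_mul_right W (Nat.succ_le_of_lt q2)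
    rw [Nat.div_mul_cancel (memU hu).1, Nat.succ_mul] at this
    omega
  · simp only [str]
    rw [mul_comm q, Nat.mul_add_div W0, Nat.mul_add_mod, Nat.div_eq_of_lt iW, Nat.mod_eq_of_lt iW,
      add_zero, ← e, List.getD_eq_getElem]

end CMx

open CMx in
theorem p_CM (hC : CO.CoreBound) : S_CM := by
  obtain ⟨C, hC⟩ := hC
  refine ⟨C, fun K c Z n sl h hs hn => ?_⟩
  set W := ∑ t ∈ c.A, #(Z t) + 1 with hW
  have W0 : 0 < W := Nat.succ_pos _
  have k := hC K (str c Z W) n sl (ok h (fun q hq => Nat.lt_succ_of_le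
    (single_le_sum (f := fun t => #(Z t)) (fun _ _ => Nat.zero_le _) hq)) W0) hs hn
  have inj : Set.InjOn (· * W) (c.A : Set ℕ) := fun _ _ _ _ e => Nat.eq_of_mul_eq_mul_right W0 e
  have e1 : (str c Z W).cnt sl = c.cnt sl := by
    simp only [CO.Core.cnt, CO.Core.Sep, str, sum_image inj, Nat.mul_div_cancel _ W0,
      dvd_mul_left, if_true]
  have e2 : (str c Z W).N = c.N := by
    simp only [CO.Core.N, str, sum_image inj, Nat.mul_div_cancel _ W0]
  have e3 : (str c Z W).own = c.own := by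
    simp only [CO.Core.own, card_filter, str, sum_image inj, Nat.mul_div_cancel _ W0,
      dvd_mul_left, if_true]
  have e4 : #(str c Z W).Zs ≤ ∑ t ∈ c.A, #(Z t) :=
    card_biUnion_le.trans (sum_le_sum fun q _ => card_image_le.trans (card_range _).le)
  rw [e1, e2, e3] at k
  omega

end Pool.Agent.P.MP_119182_lc.IT
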