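import Pool.Agent.P.MP_119182_lc.IT.Iface
import Pool.Agent.P.MP_119182_lc.UM.Avg

/-! Step FIN. -/

set_option autoImplicit false

namespace Pool.Agent.P.MP_119182_lc.IT

open Finset
open scoped Classical
open NU (mr)

namespace FINx

theorem sum_ed (a : ℕ → ℕ) (D : ℕ) : ∀ k : ℕ,
    ∑ i ∈ range k, UM.Avg.ed a D (i + 1) = UM.Avg.Ed a D k
  | 0 => by simp [UM.Avg.Ed, UM.Avg.ed_zero]
  | k + 1 => by rw [sum_range_succ, sum_ed a D k, UM.Avg.Ed_succ]

theorem marks {n m u : ℕ} {a y : ℕ → ℕ} (ha : ∀ i < m, 1 ≤ a i ∧ a i ≤ n)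
    (hy : ∀ i < m, wset a i (y i) ≤ 2 ^ u)
    (hs : ∑ i ∈ range m, Nat.dist (a i) (y i) ≤ 2 ^ u * (n + m)) :
    Marks 0 ((n : ℤ) + 1) m (fun i => (a i : ℤ)) (2 ^ u + 2) (2 * (2 ^ u * (n + m)))
      fun i => (insert (a i) (UM.Rc a (2 ^ u) i)).image (fun z : ℕ => (z : ℤ)) where
  card i _ := card_image_le.trans ((card_insert_le _ _).trans
    (Nat.succ_le_succ (UM.q_REC a (2 ^ u) i).1))
  mem i hi z hz := by
    obtain ⟨w, hw, rfl⟩ := mem_image.1 hz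
    rcases mem_insert.1 hw with rfl | hw
    · have := ha i hi
      omega
    · obtain ⟨s, hs, rfl⟩ := (UM.q_REC a (2 ^ u) i).2.2 w hw
      have := ha s (hs.trans hi)
      omega
  own i _ := mem_image_of_mem _ (mem_insert_self _ _)
  sub i _ z hz := by
    obtain ⟨w, hw, rfl⟩ := mem_image.1 hz
    rcases mem_insert.1 hw with rfl | hw
    · exact mem_insert_self _ _
    · exact mem_insert_of_mem (mem_image_of_mem _ ((UM.q_REC a (2 ^ u) i).2.1 hw))
  near := by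
    refine ⟨fun i => UM.Avg.ed a (2 ^ u) (i + 1), ?_, fun i _ => ?_⟩
    · rw [sum_ed]
      exact UM.Avg.total ha hy hs
    · obtain ⟨z, hz, e⟩ := UM.Avg.ed_mem a (2 ^ u) i
      refine ⟨z, mem_image_of_mem _ ((UM.q_REC a (2 ^ u) i).2.1 hz), ?_⟩
      show _ ≤ ((UM.Avg.ed a (2 ^ u) (i + 1) : ℕ) : ℤ)
      rw [← e]
      unfold Nat.dist
      exact abs_le.2 ⟨by omega, by omega⟩

theorem big {n m u : ℕ} (hn : 0 < n) :
    (2 ^ u + 2 + 2) ^ 2 * (n + 1 + 2 * (2 ^ u * (n + m))) ≤ 2 ^ (3 * u) * (100 * (n + m)) := by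
  have h1 : 1 ≤ 2 ^ u := Nat.one_le_two_pow
  rw [mul_comm 3 u, pow_mul]
  generalize 2 ^ u = D at h1 ⊢
  have h2 : n + m ≤ D * (n + m) := Nat.le_mul_of_pos_left _ h1
  calc _ ≤ (5 * D) ^ 2 * (4 * (D * (n + m))) :=
        Nat.mul_le_mul (Nat.pow_le_pow_left (by omega) _) (by omega)
    _ = _ := by ring

theorem small {n m u : ℕ} (hn : 0 < n) :
    (3 * u + Nat.size (2 ^ u + 2) + 1) * (n + 1 + m) + 100 * (n + m) ≤
      106 * ((u + 1) * (n + m)) := by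
  have e1 : Nat.size (2 ^ u + 2) ≤ u + 2 := Nat.size_le.2 (by
    have := Nat.one_le_two_pow (n := u)
    rw [pow_add]
    omega)
  have h1 : (3 * u + Nat.size (2 ^ u + 2) + 1) * (n + 1 + m) ≤ (4 * u + 3) * (2 * (n + m)) :=
    Nat.mul_le_mul (by omega) (by omega)
  nlinarith [Nat.zero_le (u * (n + m))]

end FINx

theorem p_FIN (hLINK : S_LINK) (hLAZY : S_LAZY) (hALGA : NU.S_ALGA) (hBRG : NU.S_BRG)
    (hTURN : NU.S_TURN) (hEMIR : NU.S_EMIR) : S_FIN := by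
  obtain ⟨C, hC⟩ := hLINK
  refine ⟨106 * C + 30, fun n u m T a y h2 h3 hy hs => ?_⟩
  rcases Nat.eq_zero_or_pos n with rfl | hn
  · rcases Nat.eq_zero_or_pos m with rfl | hm
    · simp [cost]
    · have := h3 0 hm
      omega
  have key : ∀ f : NU.Run, f.OK → f.L = 0 → f.R = (n : ℤ) + 1 → f.m = m →
      (f.x = fun i => (a i : ℤ)) →
      100 * f.LamR ≤ f.NR + C * (106 * ((u + 1) * (n + m))) ∧
        100 * f.mir.LamR ≤ f.mir.NR + C * (106 * ((u + 1) * (n + m))) := by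
    intro f hf f1 f2 f3 f4
    obtain ⟨Q, hM'⟩ : ∃ Q, Marks f.L f.R f.m f.x (2 ^ u + 2) (2 * (2 ^ u * (n + m))) Q := by
      rw [f1, f2, f3, f4]
      exact ⟨_, FINx.marks h3 hy hs⟩
    have hM2 : Marks f.mir.L f.mir.R f.mir.m f.mir.x _ _ _ := (hLAZY _ _ _ _ _ _ _ hM').2
    have k1 : (f.R - f.L).toNat = n + 1 := by omega
    have k2 : (f.mir.R - f.mir.L).toNat = n + 1 := by
      show (mr f.L - mr f.R).toNat = n + 1
      unfold mr
      omega
    have k3 : f.mir.L < f.mir.R := by omega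
    have l1 := hC (3 * u) _ _ (100 * (n + m)) f _ hf (by omega) hM'
      (by rw [k1]; exact FINx.big hn)
    have l2 := hC (3 * u) _ _ (100 * (n + m)) f.mir _ ((hEMIR f).2 hf) k3 hM2
      (by rw [k2]; exact FINx.big hn)
    rw [k1, f3] at l1
    rw [k2, show f.mir.m = m from f3] at l2
    have := Nat.mul_le_mul_left C (FINx.small (m := m) (u := u) hn)
    omega
  obtain ⟨d, d1, d2, d3, d4, d5, d6, d7, d8⟩ := hBRG n m 0 T a h2 h3
  simp only [Nat.cast_zero, zero_add, add_zero] at d1 d2 d4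
  obtain ⟨e, e1, e2, e3, e4⟩ := hALGA d d5
  have t := hTURN d e d5 e2 e1 d6 d7
  obtain ⟨f1, f2, f3, f4⟩ := e1
  have l1 := key d d5 d1 d2 d3 d4
  have l2 := key e e2 (f1.trans d1) (f2.trans d2) (f3.trans d3) (f4.trans d4)
  rw [f3, d3] at e3 e4
  have k3 : (d.R - d.L).toNat = n + 1 := by omega
  rw [k3, d3] at t
  have k4 : n + m ≤ (u + 1) * (n + m) := Nat.le_mul_of_pos_left _ (by omega)
  have k5 : (106 * C + 30) * (u + 1) * (n + m) =
      C * (106 * ((u + 1) * (n + m))) + 30 * ((u + 1) * (n + m)) := by ring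
  omega

end Pool.Agent.P.MP_119182_lc.IT
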