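import Pool.Agent.P.MP_119182_lc.IT.Iface

/-! Step INS. -/

set_option autoImplicit false

namespace Pool.Agent.P.MP_119182_lc.IT

open Finset
open scoped Classical

namespace INSx

theorem nxt_spec (R : ℤ) (Q : Finset ℤ) (a : ℤ) : nxt R Q a ≤ R ∧
    (∀ z ∈ Q, a < z → nxt R Q a ≤ z) ∧ (nxt R Q a = R ∨ (nxt R Q a ∈ Q ∧ a < nxt R Q a)) :=
  ⟨min'_le _ _ (mem_insert_self _ _),
    fun _ hz h => min'_le _ _ (mem_insert_of_mem (mem_filter.2 ⟨hz, h⟩)),
    (mem_insert.1 (min'_mem (insert R (Q.filter fun z => a < z)) (insert_nonempty _ _))).imp id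
      fun h => mem_filter.1 h⟩

theorem prv_spec (L : ℤ) (Q : Finset ℤ) (a : ℤ) : L ≤ prv L Q a ∧
    (∀ z ∈ Q, z < a → z ≤ prv L Q a) ∧ (prv L Q a = L ∨ (prv L Q a ∈ Q ∧ prv L Q a < a)) :=
  ⟨le_max' _ _ (mem_insert_self _ _),
    fun _ hz h => le_max' _ _ (mem_insert_of_mem (mem_filter.2 ⟨hz, h⟩)),
    (mem_insert.1 (max'_mem (insert L (Q.filter fun z => z < a)) (insert_nonempty _ _))).imp id
      fun h => mem_filter.1 h⟩

theorem nxt_eq {R : ℤ} {Q : Finset ℤ} {a v : ℤ} (h1 : v ≤ R) (h2 : ∀ z ∈ Q, a < z → v ≤ z)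
    (h3 : v = R ∨ (v ∈ Q ∧ a < v)) : nxt R Q a = v := by
  obtain ⟨k1, k2, k3⟩ := nxt_spec R Q a
  refine le_antisymm (h3.elim (fun e => e ▸ k1) fun k => k2 _ k.1 k.2)
    (k3.elim (fun e => e.symm ▸ h1) fun k => h2 _ k.1 k.2)

theorem dbl {B : Finset ℤ} {p : ℤ} (hp : p ∉ B) (g : ℤ → ℤ) :
    ∑ a ∈ insert p B, ∑ b ∈ insert p B, min (g a) (g b) =
      g p + 2 * ∑ b ∈ B, min (g p) (g b) + ∑ a ∈ B, ∑ b ∈ B, min (g a) (g b) := by
  simp only [sum_insert hp, sum_add_distrib, min_self]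
  rw [sum_congr rfl fun a _ => min_comm (g a) (g p)]
  ring

end INSx

open INSx in
theorem p_INS : S_INS := by
  intro L R Q hLR hQ
  have hL : L ∉ Q := fun h => lt_irrefl _ (hQ L h).1
  have hg : ∀ a ∈ insert L Q, 0 < nxt R Q a - a ∧ nxt R Q a - a ≤ R - L := by
    intro a ha
    obtain ⟨k1, -, k3⟩ := nxt_spec R Q a
    have : L ≤ a ∧ a < R := by
      rcases mem_insert.1 ha with rfl | h
      · omega
      · have := hQ a h; omega
    omega
  refine ⟨sum_nonneg fun a ha => sum_nonneg fun b hb => le_min (hg a ha).1.le (hg b hb).1.le,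
    ?_, fun y y1 y2 hy => ?_⟩
  · refine (sum_le_sum fun a ha => sum_le_sum (g := fun _ => R - L) fun b _ =>
      (min_le_left _ _).trans (hg a ha).2).trans (le_of_eq ?_)
    simp only [sum_const, card_insert_of_notMem hL, nsmul_eq_mul]
    push_cast
    ring
  obtain ⟨p1, p2, p3⟩ := prv_spec L Q y
  obtain ⟨n1, n2, n3⟩ := nxt_spec R Q y
  have hp : prv L Q y ∈ insert L Q := mem_insert.2 (p3.imp id fun k => k.1)
  have py : prv L Q y < y := by omega
  have yn : y < nxt R Q y := by omega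
  have e1 : nxt R Q (prv L Q y) = nxt R Q y := nxt_eq n1 (fun z hz h => n2 z hz (by
      rcases lt_trichotomy z y with k | k | k
      · have := p2 z hz k; omega
      · exact absurd (k ▸ hz) hy
      · exact k)) (n3.imp id fun k => ⟨k.1, by omega⟩)
  have e2 : nxt R (insert y Q) (prv L Q y) = y := nxt_eq y2.le (fun z hz h => by
      rcases mem_insert.1 hz with rfl | hz
      · exact le_rfl
      · by_contra k
        have := p2 z hz (not_le.1 k); omega) (.inr ⟨mem_insert_self _ _, py⟩)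
  have e3 : nxt R (insert y Q) y = nxt R Q y := nxt_eq n1 (fun z hz h => by
      rcases mem_insert.1 hz with rfl | hz
      · omega
      · exact n2 z hz h) (n3.imp id fun k => ⟨mem_insert_of_mem k.1, k.2⟩)
  have e4 : ∀ a ∈ (insert L Q).erase (prv L Q y), nxt R (insert y Q) a = nxt R Q a := by
    intro a ha
    obtain ⟨ne, ha'⟩ := mem_erase.1 ha
    obtain ⟨k1, k2, k3⟩ := nxt_spec R Q a
    refine nxt_eq k1 (fun z hz h => ?_) (k3.imp id fun k => ⟨mem_insert_of_mem k.1, k.2⟩)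
    rcases mem_insert.1 hz with rfl | hz
    · have a1 : a ≤ prv L Q z := (mem_insert.1 ha').elim (fun e => e.le.trans p1) fun k => p2 a k h
      have a2 : L ≤ a := (mem_insert.1 ha').elim (fun e => e.ge) fun k => (hQ a k).1.le
      have := k2 _ (p3.resolve_left (by omega)).1 (by omega)
      omega
    · exact k2 z hz h
  have hc : #((insert L Q).erase (prv L Q y)) = #Q := by
    rw [card_erase_of_mem hp, card_insert_of_notMem hL]; rfl
  have hB : ∀ a ∈ (insert L Q).erase (prv L Q y), 0 < nxt R Q a - a := fun a ha =>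
    (hg a (mem_of_mem_erase ha)).1
  have hyB : y ∉ insert (prv L Q y) ((insert L Q).erase (prv L Q y)) := by
    rw [insert_erase hp, mem_insert]; rintro (k | k)
    exacts [by omega, hy k]
  have hpB := notMem_erase (prv L Q y) (insert L Q)
  have hA := insert_erase hp
  generalize (insert L Q).erase (prv L Q y) = B at *
  have f1 := dbl hpB fun a => nxt R Q a - a
  have f2 := dbl hyB fun a => nxt R (insert y Q) a - a
  rw [dbl hpB fun a => nxt R (insert y Q) a - a, sum_insert hpB, hA, insert_comm, e2, e3] at f2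
  rw [hA, e1] at f1
  change Phi L R Q = _ at f1
  change Phi L R (insert y Q) = _ at f2
  have g1 : ∀ v, ∑ b ∈ B, min v (nxt R (insert y Q) b - b) = ∑ b ∈ B, min v (nxt R Q b - b) :=
    fun v => sum_congr rfl fun b hb => by rw [e4 b hb]
  have g2 : ∑ a ∈ B, ∑ b ∈ B, min (nxt R (insert y Q) a - a) (nxt R (insert y Q) b - b) =
      ∑ a ∈ B, ∑ b ∈ B, min (nxt R Q a - a) (nxt R Q b - b) :=
    sum_congr rfl fun a ha => by rw [g1, e4 a ha]
  rw [g2, g1, g1] at f2
  have s1 : ∑ b ∈ B, min (nxt R Q y - prv L Q y) (nxt R Q b - b) ≤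
      ∑ b ∈ B, min (nxt R Q y - y) (nxt R Q b - b) + ∑ b ∈ B, min (y - prv L Q y) (nxt R Q b - b) := by
    rw [← sum_add_distrib]
    exact sum_le_sum fun b hb => by have := hB b hb; omega
  have s2 : ∑ b ∈ B, min (nxt R Q y - y) (nxt R Q b - b) +
      ∑ b ∈ B, min (y - prv L Q y) (nxt R Q b - b) ≤
      ∑ b ∈ B, min (nxt R Q y - prv L Q y) (nxt R Q b - b) + #Q * sm L R Q y := by
    rw [← sum_add_distrib, ← hc, ← nsmul_eq_mul, ← sum_const, ← sum_add_distrib]
    exact sum_le_sum fun b hb => by have := hB b hb; unfold sm; omega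
  have s3 : min (nxt R Q y - y) (y - prv L Q y) = sm L R Q y := min_comm _ _
  rw [s3] at f2
  constructor <;> linarith

end Pool.Agent.P.MP_119182_lc.IT
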