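import Pool.Agent.P.MP_119182_lc.IT.Iface

/-! Step INT. -/

set_option autoImplicit false

namespace Pool.Agent.P.MP_119182_lc.IT

open Finset
open scoped Classical
open NU (Run mr)

namespace INTx

theorem bl_succ (j : ℕ) (v : ℤ) : bl (j + 1) v = bl j v / 2 := by
  unfold bl
  rw [pow_succ, Int.ediv_ediv_of_nonneg (by positivity)]

theorem bl_zero (v : ℤ) : bl 0 v = v := by simp [bl]

theorem bl_mono (j : ℕ) {a b : ℤ} (h : a ≤ b) : bl j a ≤ bl j b :=
  Int.ediv_le_ediv (by positivity) h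

theorem bl_mr (j : ℕ) (v : ℤ) : bl j (mr v) = mr (bl j v) := by
  induction j with
  | zero => rw [bl_zero, bl_zero]
  | succ j ih =>
    rw [bl_succ, bl_succ, ih]
    unfold mr
    omega

/-- The number of scales up to `σ` that separate `a` and `b`. -/
noncomputable def D (σ : ℕ) (a b : ℤ) : ℕ :=
  ∑ j ∈ range (σ + 1), if bl j a = bl j b then 0 else 1

theorem D_le (σ : ℕ) (a b : ℤ) : D σ a b ≤ σ + 1 :=
  (sum_le_card_nsmul _ _ 1 fun j _ => by split_ifs <;> omega).trans (by simp)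

theorem D_mr (σ : ℕ) (a b : ℤ) : D σ (mr a) b = D σ (mr b) a :=
  sum_congr rfl fun j _ => by
    rw [bl_mr, bl_mr]
    unfold mr
    split_ifs <;> omega

theorem D_mr' (σ : ℕ) (a b : ℤ) : D σ a (mr b) = D σ b (mr a) :=
  sum_congr rfl fun j _ => by
    rw [bl_mr, bl_mr]
    unfold mr
    split_ifs <;> omega

theorem D_mono (σ : ℕ) {a a' b b' : ℤ} (h1 : a' ≤ a) (h2 : a ≤ b) (h3 : b ≤ b') :
    D σ a b ≤ D σ a' b' :=
  sum_le_sum fun j _ => by
    have := bl_mono j h1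
    have := bl_mono j h2
    have := bl_mono j h3
    split_ifs <;> omega

theorem slack (σ : ℕ) {a b c : ℤ} (h1 : a < b) (h2 : b < c) :
    (bl σ a < bl σ b ∧ bl σ b < bl σ c) ∨
      ∃ j ≤ σ, bl j a < bl j c ∧ (bl j a = bl j b ∨ bl j b = bl j c) := by
  induction σ with
  | zero => exact Or.inl (by rw [bl_zero, bl_zero, bl_zero]; exact ⟨h1, h2⟩)
  | succ σ ih =>
    rcases ih with k | ⟨j, k1, k2⟩
    · by_cases e : bl (σ + 1) a < bl (σ + 1) b ∧ bl (σ + 1) b < bl (σ + 1) c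
      · exact Or.inl e
      · refine Or.inr ⟨σ + 1, le_rfl, ?_⟩
        simp only [bl_succ] at e ⊢
        omega
    · exact Or.inr ⟨j, by omega, k2⟩

theorem key (σ : ℕ) {x p u w : ℤ} (h1 : x < p) (h2 : p < u) (h3 : u < w) :
    D σ p w + (if bl σ p = bl σ w then 1 else 0) + 2 * D σ x p ≤ D σ x u + 2 * D σ x w := by
  have t : ∀ j, ((if bl j p = bl j w then 0 else 1) + 2 * if bl j x = bl j p then 0 else 1) ≤
      (if bl j x = bl j u then 0 else 1) + 2 * if bl j x = bl j w then 0 else 1 := fun j => by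
    have := bl_mono j h1.le
    have := bl_mono j h2.le
    have := bl_mono j h3.le
    split_ifs <;> omega
  have e1 : D σ p w + 2 * D σ x p = ∑ j ∈ range (σ + 1),
      ((if bl j p = bl j w then 0 else 1) + 2 * if bl j x = bl j p then 0 else 1) := by
    rw [sum_add_distrib, ← mul_sum]
    rfl
  have e2 : D σ x u + 2 * D σ x w = ∑ j ∈ range (σ + 1),
      ((if bl j x = bl j u then 0 else 1) + 2 * if bl j x = bl j w then 0 else 1) := by
    rw [sum_add_distrib, ← mul_sum]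
    rfl
  split_ifs with e
  · have : D σ p w + 2 * D σ x p < D σ x u + 2 * D σ x w := by
      rw [e1, e2]
      rcases slack σ h1 (h2.trans h3) with k | ⟨j, k1, k2⟩
      · omega
      · refine sum_lt_sum (fun j _ => t j) ⟨j, mem_range.2 (by omega), ?_⟩
        have := bl_mono j h1.le
        have := bl_mono j h2.le
        have := bl_mono j h3.le
        split_ifs <;> omega
    omega
  · have : D σ p w + 2 * D σ x p ≤ D σ x u + 2 * D σ x w := by
      rw [e1, e2]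
      exact sum_le_sum fun j _ => t j
    omega

/-- The potential of a key. -/
noncomputable def ph (σ : ℕ) (d : Run) (t : ℕ) (v : ℤ) : ℕ := D σ (d.lp t v) v + D σ v (d.rp t v)

theorem half (hTWO : S_TWO) (hPAIR : S_PAIR) (σ : ℕ) {d : Run} (hd : d.OK) {t : ℕ}
    (ht : t < d.m) : ∑ v ∈ Ioo (d.x t) d.R, ph σ d (t + 1) v + int σ d t ≤
      ∑ v ∈ Ioo (d.x t) d.R, ph σ d t v + 2 * (σ + 1) := by
  refine le_trans (le_of_eq ?_) (hPAIR d hd t ht (ph σ d t) (ph σ d (t + 1))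
    (fun v => D σ (d.x t) (max (d.x t) v)) (σ + 1)
    (fun u => bl σ (d.lp (t + 1) u) = bl σ (d.rp t u))
    (fun a b h => D_mono σ le_rfl (le_max_left _ _) (max_le_max_left _ h)) (fun v => D_le _ _ _)
    (fun u hu => ?_) fun v h1 _ h3 h4 => ?_)
  · unfold int
    congr
  · obtain ⟨⟨a1, a2, -⟩, -, ⟨b1, b2, b3, b4⟩, -⟩ := hTWO d hd t ht u hu
    obtain ⟨-, -, a3, -⟩ := NU.Run.link hd ht hu
    obtain ⟨c1, -, c2⟩ := NU.Run.mem_P.1 a1
    obtain ⟨c3, -, c4⟩ := NU.Run.mem_P.1 (NU.Run.mem_U.1 hu).1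
    have k := key σ c1 a2 a3
    have k1 := D_mono σ c2.le c1.le le_rfl
    have k2 := D_mono σ c4.le c3.le le_rfl
    unfold ph
    rw [b1, b2, b3, b4, max_eq_right c1.le, max_eq_right (c3.trans a3).le]
    split_ifs at k ⊢ <;> omega
  · unfold ph
    rw [h3]
    rcases h4 with h4 | ⟨h4, h5⟩
    · rw [h4]
    · rw [h5]
      exact Nat.add_le_add_right (D_mono σ h4.le h1.le le_rfl) _

theorem sum_mir (σ : ℕ) (d : Run) (t : ℕ) (a b : ℤ) :
    ∑ v ∈ Ioo (mr b) (mr a), ph σ d.mir t v = ∑ v ∈ Ioo a b, ph σ d t v := by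
  refine sum_nbij' mr mr (fun v hv => ?_) (fun v hv => ?_) (fun v _ => NU.mr_mr v)
    (fun v _ => NU.mr_mr v) fun v _ => ?_
  · simp only [mem_Ioo] at hv ⊢
    unfold mr at *
    omega
  · simp only [mem_Ioo] at hv ⊢
    unfold mr at *
    omega
  · change D σ (mr (d.rp t (mr v))) v + D σ v (mr (d.lp t (mr v))) = _
    rw [D_mr, D_mr', add_comm]
    rfl

theorem split (f : ℤ → ℕ) {a x b : ℤ} (h1 : a < x) (h2 : x < b) :
    ∑ v ∈ Ioo a b, f v = ∑ v ∈ Ioo a x, f v + (f x + ∑ v ∈ Ioo x b, f v) := by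
  rw [← sum_insert (by simp), ← sum_union]
  · congr 1
    ext v
    simp only [mem_Ioo, mem_union, mem_insert]
    omega
  · rw [disjoint_left]
    intro v
    simp only [mem_Ioo, mem_insert]
    omega

end INTx

open INTx in
theorem p_INT (hTWO : S_TWO) (hPAIR : S_PAIR) (hEMIR : NU.S_EMIR) : S_INT := by
  intro σ d hd
  have step : ∀ t < d.m, ∑ v ∈ Ioo d.L d.R, ph σ d (t + 1) v + int σ d t ≤
      ∑ v ∈ Ioo d.L d.R, ph σ d t v + 6 * (σ + 1) := fun t ht => by
    obtain ⟨h1, h2⟩ := (hd.step t ht).mem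
    have k1 := half hTWO hPAIR σ hd ht
    have k2 : ∑ v ∈ Ioo (mr (d.x t)) (mr d.L), ph σ d.mir (t + 1) v + int σ d.mir t ≤
        ∑ v ∈ Ioo (mr (d.x t)) (mr d.L), ph σ d.mir t v + 2 * (σ + 1) :=
      half hTWO hPAIR σ ((hEMIR d).2 hd) ht
    rw [sum_mir, sum_mir] at k2
    have k3 : ph σ d (t + 1) (d.x t) ≤ (σ + 1) + (σ + 1) := add_le_add (D_le _ _ _) (D_le _ _ _)
    rw [split _ h1 h2, split _ h1 h2]
    omega
  have all : ∀ k ≤ d.m, ∑ v ∈ Ioo d.L d.R, ph σ d k v + ∑ t ∈ range k, int σ d t ≤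
      ∑ v ∈ Ioo d.L d.R, ph σ d 0 v + k * (6 * (σ + 1)) := fun k => by
    induction k with
    | zero => simp
    | succ k ih =>
      intro hk
      have := ih (by omega)
      have := step k hk
      rw [sum_range_succ, Nat.succ_mul]
      omega
  have k1 := all d.m le_rfl
  have k2 : ∑ v ∈ Ioo d.L d.R, ph σ d 0 v ≤ (d.R - d.L).toNat * ((σ + 1) + (σ + 1)) :=
    (sum_le_card_nsmul _ _ ((σ + 1) + (σ + 1)) fun v _ =>
      add_le_add (D_le _ _ _) (D_le _ _ _)).trans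
      (Nat.mul_le_mul_right _ (by rw [Int.card_Ioo]; omega))
  have e : (σ + 1) * (2 * (d.R - d.L).toNat + 6 * d.m) =
      (d.R - d.L).toNat * ((σ + 1) + (σ + 1)) + d.m * (6 * (σ + 1)) := by ring
  omega

end Pool.Agent.P.MP_119182_lc.IT
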