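import Pool.Agent.P.MP_119182_lc.IT.Iface

/-! Step KILL. -/

set_option autoImplicit false

namespace Pool.Agent.P.MP_119182_lc.IT

open Finset
open scoped Classical

namespace KILLx

theorem bl_mono (σ : ℕ) {u v : ℤ} (h : u ≤ v) : bl σ u ≤ bl σ v :=
  Int.ediv_le_ediv (by positivity) h

theorem bl_sub (σ : ℕ) (u v : ℤ) : (2 : ℤ) ^ σ * (bl σ v - bl σ u - 1) ≤ v - u := by
  have h : (0 : ℤ) < 2 ^ σ := by positivity
  have h1 := Int.mul_ediv_add_emod u (2 ^ σ)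
  have h2 := Int.mul_ediv_add_emod v (2 ^ σ)
  have h3 := Int.emod_lt_of_pos u h
  have h4 := Int.emod_nonneg v h.ne'
  unfold bl
  linarith

theorem prv_spec (L : ℤ) (Q : Finset ℤ) {y : ℤ} (h : L < y) :
    prv L Q y < y ∧ (prv L Q y = L ∨ prv L Q y ∈ Q) := by
  rcases mem_insert.1 (max'_mem (insert L (Q.filter fun z => z < y)) (insert_nonempty _ _)) with
    k | k
  · exact ⟨lt_of_eq_of_lt k h, .inl k⟩
  · exact ⟨(mem_filter.1 k).2, .inr (mem_filter.1 k).1⟩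

theorem nxt_spec (R : ℤ) (Q : Finset ℤ) {y : ℤ} (h : y < R) :
    y < nxt R Q y ∧ (nxt R Q y = R ∨ nxt R Q y ∈ Q) := by
  rcases mem_insert.1 (min'_mem (insert R (Q.filter fun z => y < z)) (insert_nonempty _ _)) with
    k | k
  · exact ⟨lt_of_lt_of_eq h k.symm, .inl k⟩
  · exact ⟨(mem_filter.1 k).2, .inr (mem_filter.1 k).1⟩

section
variable (σ : ℕ) (L R : ℤ) (Q0 Q1 : Finset ℤ) (y1 : ℤ)

/-- Free items. -/
def fr (Q : Finset ℤ) (B : ℤ) : Prop := bl σ L < B ∧ B < bl σ R ∧ ∀ z ∈ Q, bl σ z ≠ B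

/-- Items killed from the left. -/
def KL (B : ℤ) : Prop :=
  (y1 ∉ Q0 ∧ y1 - prv L Q0 y1 ≤ nxt R Q0 y1 - y1 ∧ bl σ (prv L Q0 y1) < B ∧ B ≤ bl σ y1) ∨
    ∃ y ∈ insert y1 Q0 \ Q1, nxt R (insert y1 Q0) y - y < y - prv L (insert y1 Q0) y ∧
      bl σ y < B ∧ B < bl σ (nxt R (insert y1 Q0) y)

/-- Items killed from the right. -/
def KR (B : ℤ) : Prop :=
  (y1 ∉ Q0 ∧ nxt R Q0 y1 - y1 < y1 - prv L Q0 y1 ∧ bl σ y1 ≤ B ∧ B < bl σ (nxt R Q0 y1)) ∨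
    ∃ y ∈ insert y1 Q0 \ Q1, y - prv L (insert y1 Q0) y ≤ nxt R (insert y1 Q0) y - y ∧
      bl σ (prv L (insert y1 Q0) y) < B ∧ B < bl σ y

/-- The hypotheses on one step. -/
structure St : Prop where
  mem : ∀ z ∈ insert y1 Q0, L < z ∧ z < R
  own : y1 ∈ Q1
  sub : Q1 ⊆ insert y1 Q0
  one : #(insert y1 Q0 \ Q1) ≤ 1

variable {σ L R Q0 Q1 y1}

theorem not_fr {Q : Finset ℤ} {z : ℤ} (h : z = L ∨ z = R ∨ z ∈ Q) : ¬ fr σ L R Q (bl σ z) := by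
  rintro ⟨h1, h2, h3⟩
  rcases h with rfl | rfl | h
  exacts [lt_irrefl _ h1, lt_irrefl _ h2, h3 z h rfl]

variable (h : St L R Q0 Q1 y1)
include h

theorem old {y : ℤ} (hy : y ∈ insert y1 Q0 \ Q1) : y ∈ Q0 :=
  (mem_insert.1 (mem_sdiff.1 hy).1).resolve_left fun e => (mem_sdiff.1 hy).2 (e ▸ h.own)

theorem pre {B B' : ℤ} (hB : B ≤ B') (hc : ∀ B'', B ≤ B'' → B'' ≤ B' → fr σ L R Q0 B'')
    (k : KL σ L R Q0 Q1 y1 B') : KL σ L R Q0 Q1 y1 B := by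
  rcases k with ⟨k1, k2, k3, k4⟩ | ⟨y, k1, k2, k3, k4⟩
  · refine .inl ⟨k1, k2, not_le.1 fun k => not_fr ?_ (hc _ k k3.le), hB.trans k4⟩
    exact (prv_spec L Q0 (h.mem y1 (mem_insert_self _ _)).1).2.imp_right .inr
  · exact .inr ⟨y, k1, k2, not_le.1 fun k => not_fr (.inr (.inr (old h k1))) (hc _ k k3.le),
      hB.trans_lt k4⟩

theorem suf {B B' : ℤ} (hB : B ≤ B') (hc : ∀ B'', B ≤ B'' → B'' ≤ B' → fr σ L R Q0 B'')
    (k : KR σ L R Q0 Q1 y1 B) : KR σ L R Q0 Q1 y1 B' := by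
  rcases k with ⟨k1, k2, k3, k4⟩ | ⟨y, k1, k2, k3, k4⟩
  · refine .inl ⟨k1, k2, k3.trans hB, not_le.1 fun k => not_fr ?_ (hc _ k4.le k)⟩
    exact .inr (nxt_spec R Q0 (h.mem y1 (mem_insert_self _ _)).2).2
  · exact .inr ⟨y, k1, k2, k3.trans_le hB,
      not_le.1 fun k => not_fr (.inr (.inr (old h k1))) (hc _ k4.le k)⟩

theorem sur {B : ℤ} (hB : fr σ L R Q0 B) (k1 : ¬ KL σ L R Q0 Q1 y1 B)
    (k2 : ¬ KR σ L R Q0 Q1 y1 B) : fr σ L R Q1 B := by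
  refine ⟨hB.1, hB.2.1, fun z hz e => ?_⟩
  have hz0 : z ∉ Q0 := fun k => hB.2.2 z k e
  obtain rfl : z = y1 := (mem_insert.1 (h.sub hz)).resolve_right hz0
  obtain ⟨m1, m2⟩ := h.mem z (mem_insert_self _ _)
  obtain ⟨p1, p2⟩ := prv_spec L Q0 m1
  obtain ⟨n1, n2⟩ := nxt_spec R Q0 m2
  subst e
  rcases le_or_gt (z - prv L Q0 z) (nxt R Q0 z - z) with k | k
  · exact k1 (.inl ⟨hz0, k, (bl_mono σ p1.le).lt_of_ne fun e =>
      not_fr (p2.imp_right .inr) (e ▸ hB), le_rfl⟩)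
  · exact k2 (.inl ⟨hz0, k, le_rfl, (bl_mono σ n1.le).lt_of_ne fun e =>
      not_fr (.inr n2) (e ▸ hB)⟩)

theorem back {B B' : ℤ} (hB : fr σ L R Q0 B) (k2 : ¬ KR σ L R Q0 Q1 y1 B)
    (hB' : fr σ L R Q0 B') (k1 : ¬ KL σ L R Q0 Q1 y1 B')
    (hc : ∀ B'', B ≤ B'' → B'' ≤ B' → fr σ L R Q1 B'') (B'' : ℤ) (a1 : B ≤ B'') (a2 : B'' ≤ B') :
    fr σ L R Q0 B'' := by
  have h1 := hc B'' a1 a2
  refine ⟨h1.1, h1.2.1, fun y hy e => ?_⟩
  subst e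
  have hd : y ∈ insert y1 Q0 \ Q1 :=
    mem_sdiff.2 ⟨mem_insert_of_mem hy, fun k => h1.2.2 y k rfl⟩
  have hk : ∀ z ∈ insert y1 Q0, z ≠ y → z ∈ Q1 := fun z hz e => by_contra fun k =>
    e (card_le_one.1 h.one z (mem_sdiff.2 ⟨hz, k⟩) y hd)
  obtain ⟨m1, m2⟩ := h.mem y (mem_insert_of_mem hy)
  obtain ⟨p1, p2⟩ := prv_spec L (insert y1 Q0) m1
  obtain ⟨n1, n2⟩ := nxt_spec R (insert y1 Q0) m2
  have b1 : B < bl σ y := a1.lt_of_ne fun e => hB.2.2 y hy e.symm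
  have b2 : bl σ y < B' := a2.lt_of_ne (hB'.2.2 y hy)
  rcases le_or_gt (y - prv L (insert y1 Q0) y) (nxt R (insert y1 Q0) y - y) with k | k
  · refine k2 (.inr ⟨y, hd, k, not_le.1 fun e => not_fr ?_
      (hc _ e ((bl_mono σ p1.le).trans a2)), b1⟩)
    exact p2.imp_right fun q => .inr (hk _ q p1.ne)
  · refine k1 (.inr ⟨y, hd, k, b2, not_le.1 fun e => not_fr ?_
      (hc _ (a1.trans (bl_mono σ n1.le)) e)⟩)
    exact .inr (n2.imp_right fun q => hk _ q n1.ne')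

omit h in
theorem oo (σ : ℕ) {u v : ℤ} (k : u ≤ v) : (2 : ℤ) ^ σ * #(Ioo (bl σ u) (bl σ v)) ≤ v - u := by
  have h1 := bl_sub σ u v
  rw [Int.card_Ioo]
  rcases le_total 0 (bl σ v - bl σ u - 1) with m | m
  · rwa [Int.toNat_of_nonneg m]
  · rw [Int.toNat_of_nonpos m]
    simpa using k

theorem cnt (S : Finset ℤ) (hS : ∀ B ∈ S, KL σ L R Q0 Q1 y1 B ∨ KR σ L R Q0 Q1 y1 B) :
    (2 : ℤ) ^ σ * #S ≤ 2 ^ σ + ((if y1 ∈ Q0 then 0 else sm L R Q0 y1) +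
      ∑ y ∈ insert y1 Q0 \ Q1, sm L R (insert y1 Q0) y) := by
  have h2 : (0 : ℤ) < 2 ^ σ := by positivity
  let I : Finset ℤ := if y1 ∈ Q0 then ∅ else
    if y1 - prv L Q0 y1 ≤ nxt R Q0 y1 - y1 then Ioo (bl σ (prv L Q0 y1)) (bl σ y1)
    else Ioo (bl σ y1) (bl σ (nxt R Q0 y1))
  let J : ℤ → Finset ℤ := fun y =>
    if y - prv L (insert y1 Q0) y ≤ nxt R (insert y1 Q0) y - y then
      Ioo (bl σ (prv L (insert y1 Q0) y)) (bl σ y) else Ioo (bl σ y) (bl σ (nxt R (insert y1 Q0) y))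
  have hsub : S ⊆ insert (bl σ y1) (I ∪ (insert y1 Q0 \ Q1).biUnion J) := by
    intro B hB
    rw [mem_insert, mem_union, mem_biUnion, or_iff_not_imp_left]
    intro e
    rcases hS B hB with (⟨k1, k2, k3, k4⟩ | ⟨y, k1, k2, k3, k4⟩) |
      (⟨k1, k2, k3, k4⟩ | ⟨y, k1, k2, k3, k4⟩)
    · exact .inl (by simp only [I, if_neg k1, if_pos k2]; exact mem_Ioo.2 ⟨k3, k4.lt_of_ne e⟩)
    · exact .inr ⟨y, k1, by simp only [J, if_neg k2.not_ge]; exact mem_Ioo.2 ⟨k3, k4⟩⟩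
    · exact .inl (by
        simp only [I, if_neg k1, if_neg k2.not_ge]
        exact mem_Ioo.2 ⟨k3.lt_of_ne (Ne.symm e), k4⟩)
    · exact .inr ⟨y, k1, by simp only [J, if_pos k2]; exact mem_Ioo.2 ⟨k3, k4⟩⟩
  have h3 : #S ≤ #I + ∑ y ∈ insert y1 Q0 \ Q1, #(J y) + 1 :=
    (card_le_card hsub).trans ((card_insert_le _ _).trans (Nat.add_le_add_right
      ((card_union_le _ _).trans (Nat.add_le_add_left card_biUnion_le _)) 1))
  have h4 : (2 : ℤ) ^ σ * #I ≤ if y1 ∈ Q0 then 0 else sm L R Q0 y1 := by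
    obtain ⟨m1, m2⟩ := h.mem y1 (mem_insert_self _ _)
    simp only [I, sm]
    split_ifs with k1 k2
    · simp
    · rw [min_eq_left k2]
      exact oo σ (prv_spec L Q0 m1).1.le
    · rw [min_eq_right (not_le.1 k2).le]
      exact oo σ (nxt_spec R Q0 m2).1.le
  have h5 : ∀ y ∈ insert y1 Q0 \ Q1, (2 : ℤ) ^ σ * #(J y) ≤ sm L R (insert y1 Q0) y := by
    intro y hy
    obtain ⟨m1, m2⟩ := h.mem y (mem_sdiff.1 hy).1
    simp only [J, sm]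
    split_ifs with k2
    · rw [min_eq_left k2]
      exact oo σ (prv_spec L _ m1).1.le
    · rw [min_eq_right (not_le.1 k2).le]
      exact oo σ (nxt_spec R _ m2).1.le
  have h6 := sum_le_sum h5
  rw [← mul_sum] at h6
  have h7 : (#S : ℤ) ≤ #I + ∑ y ∈ insert y1 Q0 \ Q1, (#(J y) : ℤ) + 1 := by exact_mod_cast h3
  nlinarith [mul_le_mul_of_nonneg_left h7 h2.le]

end

end KILLx

open KILLx in
theorem p_KILL (hSUM : S_SUM) : S_KILL := by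
  intro σ L R m x c Z Q hLR hM hO
  have hst : ∀ t, t + 1 < m → St L R (Q t) (Q (t + 1)) (x (t + 1)) := fun t ht =>
    ⟨fun z hz => (mem_insert.1 hz).elim (fun e => e ▸ hM.mem _ ht _ (hM.own _ ht))
      (hM.mem t (by omega) z), hM.own _ ht, hM.sub t ht, hO t ht⟩
  refine ⟨fun t => KL σ L R (Q t) (Q (t + 1)) (x (t + 1)),
    fun t => KR σ L R (Q t) (Q (t + 1)) (x (t + 1)),
    ⟨fun t B B' ht => pre (hst t ht), fun t B B' ht => suf (hst t ht),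
      fun t B ht => sur (hst t ht), fun t B B' ht hB a1 a2 a3 b1 b2 b3 =>
        ⟨fun hc B'' c1 c2 => sur (hst t ht) (hc B'' c1 c2)
          (fun k => a2 (pre (hst t ht) c1 (fun u u1 u2 => hc u u1 (u2.trans c2)) k))
          (fun k => b3 (suf (hst t ht) c2 (fun u u1 u2 => hc u (c1.trans u1) u2) k)),
          back (hst t ht) a1 a3 b1 b2⟩⟩, ?_⟩
  have h1 := hSUM L R m x c Z Q hLR hM hO
  rw [card_filter, sum_product]
  simp only [← card_filter]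
  have h2 := sum_le_sum (s := range (m - 1)) fun t ht =>
    cnt (σ := σ) (hst t (by have := mem_range.1 ht; omega))
      ((Ioo (bl σ L) (bl σ R)).filter fun B => lv σ L R Q t B ∧
        (KL σ L R (Q t) (Q (t + 1)) (x (t + 1)) B ∨ KR σ L R (Q t) (Q (t + 1)) (x (t + 1)) B))
      fun B hB => (mem_filter.1 hB).2.2
  rw [sum_add_distrib, sum_const, card_range, ← mul_sum, nsmul_eq_mul] at h2
  have h3 : ((m - 1 : ℕ) : ℤ) ≤ 2 * m := by omega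
  have h4 : (0 : ℤ) < 2 ^ σ := by positivity
  zify
  rw [Int.toNat_of_nonneg (by omega)]
  nlinarith [mul_le_mul_of_nonneg_left h3 h4.le]

end Pool.Agent.P.MP_119182_lc.IT
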