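import Pool.Agent.P.MP_119182_lc.IT.Iface

/-! Step LINK. -/

set_option autoImplicit false

namespace Pool.Agent.P.MP_119182_lc.IT

open Finset
open scoped Classical
open NU (Run mr)

namespace LINKx

theorem items (σ : ℕ) (L R : ℤ) : #(Ioo (bl σ L) (bl σ R)) ≤ (R - L).toNat := by
  have s : (0 : ℤ) < 2 ^ σ := by positivity
  have a : R / 2 ^ σ * 2 ^ σ ≤ R := Int.ediv_mul_le R s.ne'
  have b : L < (L / 2 ^ σ + 1) * 2 ^ σ := Int.lt_ediv_add_one_mul_self L s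
  rw [Int.card_Ioo]
  unfold bl
  generalize R / 2 ^ σ = p at *
  generalize L / 2 ^ σ = q at *
  generalize (2 : ℤ) ^ σ = z at *
  rcases le_or_gt (p - q - 1) 0 with h | h
  · omega
  · have : p - q - 1 ≤ R - L := by nlinarith
    omega

theorem inst_le (σ : ℕ) (d : Run) (Q : ℕ → Finset ℤ) (dt : ℕ → ℤ → ℕ) (KL KR : ℕ → ℤ → Prop)
    (h : ∀ t B, t + 1 < d.m → lv σ d.L d.R Q t B → dt t B = t → KL t B ∨ KR t B) :
    inst σ d Q dt ≤ #((range (d.m - 1) ×ˢ Ioo (bl σ d.L) (bl σ d.R)).filter fun p =>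
      lv σ d.L d.R Q p.1 p.2 ∧ (KL p.1 p.2 ∨ KR p.1 p.2)) + (d.R - d.L).toNat := by
  have c : #(({d.m - 1} : Finset ℕ) ×ˢ Ioo (bl σ d.L) (bl σ d.R)) ≤ (d.R - d.L).toNat := by
    rw [card_product, card_singleton, one_mul]
    exact items σ _ _
  refine le_trans (card_le_card ?_) ((card_union_le _ _).trans (Nat.add_le_add_left c _))
  intro p hp
  simp only [mem_filter, mem_product, mem_range, mem_union, mem_singleton] at hp ⊢
  obtain ⟨⟨p1, p2⟩, p3, p4⟩ := hp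
  rcases lt_or_ge (p.1 + 1) d.m with q | q
  · exact Or.inl ⟨⟨by omega, p2⟩, p3, h _ _ q p3 p4⟩
  · exact Or.inr ⟨by omega, p2⟩

end LINKx

theorem p_LINK (hLAZY : S_LAZY) (hKILL : S_KILL) (hDTH : S_DTH) (hLEFT : S_LEFT)
    (hRIGHT : S_RIGHT) (hUP : S_UP) (hINT : S_INT) (hCLS : S_CLS) (hEMIR : NU.S_EMIR) :
    S_LINK := by
  obtain ⟨C, hC⟩ := hLEFT 1600
  refine ⟨3 * C + 1000000, fun σ c Z Y d Q0 ok lt mk0 hY => ?_⟩
  obtain ⟨Q, mk, one⟩ := (hLAZY _ _ _ _ _ _ _ mk0).1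
  have mm := (hLAZY _ _ _ _ _ _ _ mk).2
  obtain ⟨KL, KR, kl, cnt⟩ := hKILL σ _ _ _ _ _ _ _ lt mk one
  obtain ⟨dt, sd, lab, lf, hd⟩ := hDTH d.m (bl σ d.L) _ KL KR (fun _ _ h => h.1) kl
  have i1 := LINKx.inst_le σ d Q dt KL KR hd
  have i2 := Nat.le_of_mul_le_mul_left
    (cnt.trans ((Nat.add_le_add_left hY _).trans_eq (mul_add _ _ _).symm)) (Nat.two_pow_pos σ)
  have l1 := hC σ d Q dt sd lab ok mk.own lf
  have l2 := hRIGHT 1600 σ d Q dt sd lab ok mk.own lf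
  have u1 := hUP d c Z Q ok mk
  have u2 := hUP d.mir c Z (mq Q) (hEMIR d |>.2 ok) mm
  have u3 := hINT σ d ok
  have k1 : (d.mir.R - d.mir.L).toNat = (d.R - d.L).toNat := by
    change (mr d.L - mr d.R).toNat = _
    unfold mr
    omega
  have k2 : d.mir.m = d.m := rfl
  rw [k1, k2] at u2
  have s1 : d.LamR ≤ ∑ t ∈ range d.m, (up d Q t + int σ d t + 4 +
      2 * (#((own σ d Q t).filter fun B => sd t B) + #((own σ d Q t).filter fun B => ¬ sd t B))) :=
    sum_le_sum fun t ht => by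
      rw [card_filter_add_card_filter_not]
      exact hCLS σ d Q ok t (mem_range.1 ht) (mk.own t (mem_range.1 ht))
  simp only [sum_add_distrib, ← mul_sum, sum_const, card_range, smul_eq_mul] at s1
  generalize (d.R - d.L).toNat = n at *
  have w1 : Nat.size c * (n + 5 * d.m) ≤ 5 * ((σ + Nat.size c + 1) * (n + d.m)) := by
    rw [mul_left_comm]
    exact Nat.mul_le_mul (by omega) (by omega)
  have w2 : (σ + 1) * (2 * n + 6 * d.m) ≤ 6 * ((σ + Nat.size c + 1) * (n + d.m)) := by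
    rw [mul_left_comm]
    exact Nat.mul_le_mul (by omega) (by omega)
  have w3 : n + d.m ≤ (σ + Nat.size c + 1) * (n + d.m) := Nat.le_mul_of_pos_left _ (by omega)
  generalize (σ + Nat.size c + 1) * (n + d.m) = W at *
  have w4 : C * (d.m + inst σ d Q dt) ≤ C * (3 * (W + Y)) := Nat.mul_le_mul_left _ (by omega)
  have w5 : (3 * C + 1000000) * (W + Y) = C * (3 * (W + Y)) + 1000000 * (W + Y) := by ring
  rw [w5]
  omega

end Pool.Agent.P.MP_119182_lc.IT
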