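import Pool.Agent.P.MP_119182_lc.IT.TFRAME

/-! Step RIGHT. -/

set_option autoImplicit false

namespace Pool.Agent.P.MP_119182_lc.IT

open Finset
open scoped Classical
open NU (Run mr)

namespace RIGHTx

open FRAMEx

section
variable (σ : ℕ) (d : Run) (Q : ℕ → Finset ℤ) (dt : ℕ → ℤ → ℕ) (sd : ℕ → ℤ → Prop)

/-- The items from `B'` to `B` lie in the right part of one gap. -/
def G (t : ℕ) (B' B : ℤ) : Prop := conn (lv σ d.L d.R Q) t B' B ∧ ¬ sd t B'

/-- The keys of `B` whose left parent is outside the right part of the gap. -/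
noncomputable def E (t : ℕ) (B : ℤ) : Finset ℤ :=
  (Ioo d.L d.R).filter fun y => bl σ y = B ∧ ¬ G σ d Q sd t (bl σ (d.lp t y)) B

/-- The live right items. -/
noncomputable def S (t : ℕ) : Finset ℤ :=
  (Ioo (bl σ d.L) (bl σ d.R)).filter fun B => t < d.m ∧ lv σ d.L d.R Q t B ∧ ¬ sd t B

/-- The new members. -/
noncomputable def New (t : ℕ) : Finset ℤ :=
  (Ioo d.L d.R).filter fun y => t + 1 ≤ dt t (bl σ y) ∧
    G σ d Q sd t (bl σ (d.lp t y)) (bl σ y) ∧ ¬ G σ d Q sd (t + 1) (bl σ (d.lp (t + 1) y)) (bl σ y)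

/-- The own right items. -/
noncomputable def O (t : ℕ) : Finset ℤ := (own σ d Q t).filter fun B => ¬ sd t B

/-- The light surviving own right items above the lowest one. -/
noncomputable def D (K t : ℕ) : Finset ℤ :=
  (O σ d Q sd t).filter fun B => (∃ B0 ∈ O σ d Q sd t, B0 < B) ∧ dt t B ≠ t ∧
    #((d.P t).filter fun y => bl σ y = B) ≤ K

/-- The items that die. -/
noncomputable def dy (t : ℕ) : Finset ℤ :=
  (Ioo (bl σ d.L) (bl σ d.R)).filter fun B => lv σ d.L d.R Q t B ∧ dt t B = t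

end

variable {σ : ℕ} {d : Run} {Q : ℕ → Finset ℤ} {dt : ℕ → ℤ → ℕ} {sd : ℕ → ℤ → Prop}
  {lab : ℕ → ℤ → ℕ × ℤ} {t : ℕ}

theorem G_up (hl : Lives d.m (lv σ d.L d.R Q) dt sd lab) (ht : t < d.m) {A A' B : ℤ}
    (h : G σ d Q sd t A B) (h1 : A ≤ A') (h2 : A' ≤ B) : G σ d Q sd t A' B :=
  ⟨fun C a b => h.1 C (h1.trans a) b,
    (hl.right t ht A A' h1 (fun C a b => h.1 C a (b.trans h2)) h.2).1⟩

theorem G_next (hl : Lives d.m (lv σ d.L d.R Q) dt sd lab) (ht : t < d.m) {A B : ℤ}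
    (h : G σ d Q sd t A B) (h1 : A ≤ B) (h2 : t + 1 ≤ dt t B) :
    t + 1 < d.m ∧ G σ d Q sd (t + 1) A B := by
  have a := h.1 A le_rfl h1
  have b := h.1 B h1 le_rfl
  have k := h2.trans_lt (hl.rng t ht B b).2
  obtain ⟨a1, -, a3, a4⟩ := hl.keep t ht (t + 1) A a (Nat.le_succ t)
    (h2.trans (hl.right t ht A B h1 h.1 h.2).2)
  obtain ⟨b1, -, -, b4⟩ := hl.keep t ht (t + 1) B b (Nat.le_succ t) h2
  exact ⟨k, (hl.gap (t + 1) k A B a1 b1 h1).1
    (a4.trans (((hl.gap t ht A B a b h1).2 h.1).trans b4.symm)), fun z => h.2 (a3.1 z)⟩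

theorem G_x (hQ : ∀ i < d.m, d.x i ∈ Q i) (ht : t < d.m) {a b : ℤ}
    (h : G σ d Q sd t (bl σ a) (bl σ b)) (h1 : a ≤ d.x t) (h2 : d.x t ≤ b) : False :=
  (h.1 _ (bl_mono σ h1) (bl_mono σ h2)).2.2 _ (hQ t ht) rfl

theorem new_link (hd : d.OK) (hQ : ∀ i < d.m, d.x i ∈ Q i)
    (hl : Lives d.m (lv σ d.L d.R Q) dt sd lab) (ht : t < d.m) {y : ℤ}
    (hy : y ∈ New σ d Q dt sd t) : y < d.x t ∧ mr (d.lp t y) ∈ d.mir.U t ∧
      d.rp (t + 1) (d.lp t y) = y ∧ d.lp (t + 1) y = d.lp t (d.lp t y) := by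
  obtain ⟨h1, h2, h3, h4⟩ := mem_filter.1 hy
  obtain ⟨hL, hR⟩ := mem_Ioo.1 h1
  have b := (hd.tree t ht.le).bnd y hL hR
  have s := hd.step t ht
  have ne : d.lp (t + 1) y ≠ d.lp t y := fun e =>
    h4 (e ▸ (G_next hl ht h3 (bl_mono σ b.2.1.le) h2).2)
  have k : y < d.x t ∨ d.x t < d.lp t y := by
    by_contra k
    exact G_x hQ ht h3 (by omega) (by omega)
  have k1 : y < d.x t ∧ d.x t < d.rp t y := by
    by_contra z
    exact ne (s.off y hL hR (by omega) (by omega)).1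
  obtain ⟨a1, a2, a3⟩ := s.lowL y hL k1.1 k1.2 ne
  have a4 := (hd.tree t ht.le).ancL y hL hR a1
  refine ⟨k1.1, ?_, a2, a3⟩
  have e : mr (mr (d.lp t y)) = d.lp t y := by simp only [mr]; omega
  simp only [Run.U, Run.P, Run.mir, mem_filter, mem_Ioo, e, a2]
  simp only [mr]
  omega

theorem new_card (hTWO : S_TWO) (hd : d.OK) (hm : d.mir.OK) (hQ : ∀ i < d.m, d.x i ∈ Q i)
    (hl : Lives d.m (lv σ d.L d.R Q) dt sd lab) (ht : t < d.m) :
    #(New σ d Q dt sd t) ≤ up d.mir (mq Q) t + 1 := by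
  have e : ∀ v, mr (mr v) = v := fun v => by simp only [mr]; omega
  rw [← card_filter_add_card_filter_not fun y =>
    ∃ z ∈ Q t, d.lp t (d.lp t y) < z ∧ z < d.x t]
  refine Nat.add_le_add (card_le_card_of_injOn (fun y => mr (d.lp t y)) (fun y hy => ?_)
    fun y hy y' hy' k => ?_) (card_le_one.2 ?_)
  · obtain ⟨h1, z, z1, z2, z3⟩ := mem_filter.1 hy
    refine mem_filter.2 ⟨(new_link hd hQ hl ht h1).2.1, mr z, mem_image_of_mem _ z1, ?_⟩
    simp only [Run.mir, e]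
    simp only [mr]
    omega
  · have a := (new_link hd hQ hl ht (mem_filter.1 hy).1).2.2.1
    have b := (new_link hd hQ hl ht (mem_filter.1 hy').1).2.2.1
    have c : d.lp t y = d.lp t y' := by simp only [mr] at k; omega
    rw [← a, c, b]
  · have key : ∀ y ∈ New σ d Q dt sd t, ∀ y' ∈ New σ d Q dt sd t, d.lp t y < d.lp t y' →
        ∃ z ∈ Q t, d.lp t (d.lp t y) < z ∧ z < d.x t := fun y hy y' hy' k => by
      by_contra hn
      obtain ⟨a1, a2, a3, a4⟩ := new_link hd hQ hl ht hy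
      obtain ⟨b1, b2, b3, b4⟩ := new_link hd hQ hl ht hy'
      obtain ⟨c1, -, c3, -⟩ := mem_filter.1 hy
      obtain ⟨d1, d2, d3, d4⟩ := mem_filter.1 hy'
      rw [mem_Ioo] at c1 d1
      have o := (hTWO d.mir hm t ht _ b2).2.2.2 _ a2 (by simp only [mr]; omega)
      simp only [Run.mir, e, a3] at o
      simp only [mr] at o
      have p1 := (hd.tree t ht.le).bnd y c1.1 c1.2
      have p2 := (hd.tree t ht.le).bnd y' d1.1 d1.2
      have p3 := (hd.tree (t + 1) ht).bnd y c1.1 c1.2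
      have p4 := (hd.tree (t + 1) ht).bnd y' d1.1 d1.2
      have p5 : d.L < d.lp t y := by
        have := (mem_P.1 (mem_filter.1 a2).1).1.2
        simp only [Run.mir, mr] at this
        omega
      have p6 := (hd.tree t ht.le).bnd (d.lp t y) p5 (by omega)
      have l1 := c3.1 _ le_rfl (bl_mono σ p1.2.1.le)
      have l2 := d3.1 _ (bl_mono σ p2.2.1.le) le_rfl
      have g : G σ d Q sd t (bl σ (d.lp t y)) (bl σ y') := by
        refine ⟨fun C u1 u2 => ⟨l1.1.trans_le u1, u2.trans_lt l2.2.1, fun z hz ez => ?_⟩, c3.2⟩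
        have v1 := lt_of_bl (lt_of_le_of_ne (ez ▸ u1) (l1.2.2 z hz).symm)
        have v2 := lt_of_bl (lt_of_le_of_ne (ez ▸ u2) (l2.2.2 z hz))
        exact hn ⟨z, hz, by omega, by omega⟩
      obtain ⟨g1, g2⟩ := G_next hl ht g (bl_mono σ (by omega)) d2
      exact d4 (G_up hl g1 g2 (bl_mono σ (by omega)) (bl_mono σ p4.2.1.le))
    intro y hy y' hy'
    obtain ⟨h1, h2⟩ := mem_filter.1 hy
    obtain ⟨h3, h4⟩ := mem_filter.1 hy'
    rcases lt_trichotomy (d.lp t y) (d.lp t y') with k | k | k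
    · exact absurd (key y h1 y' h3 k) h2
    · rw [← (new_link hd hQ hl ht h1).2.2.1, k, (new_link hd hQ hl ht h3).2.2.1]
    · exact absurd (key y' h3 y h1 k) h4

theorem mem_O {B : ℤ} (h : B ∈ O σ d Q sd t) : (∃ u ∈ d.U t, bl σ u = B) ∧ bl σ (d.x t) < B ∧
    conn (lv σ d.L d.R Q) t (bl σ (d.x t) + 1) B ∧ ¬ sd t B := by
  obtain ⟨h1, h2⟩ := mem_filter.1 h
  obtain ⟨h3, h4, h5⟩ := mem_filter.1 h1
  exact ⟨mem_image.1 h3, h4, h5, h2⟩

theorem item (hTWO : S_TWO) (hd : d.OK) (hQ : ∀ i < d.m, d.x i ∈ Q i)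
    (hl : Lives d.m (lv σ d.L d.R Q) dt sd lab) (ht : t < d.m) (K : ℕ) {B : ℤ}
    (h2 : t + 1 ≤ dt t B) :
    K - #(E σ d Q sd t B) + (if B ∈ D σ d Q dt sd K t then 1 else 0) ≤
      K - #(E σ d Q sd (t + 1) B) + #((New σ d Q dt sd t).filter fun y => bl σ y = B) := by
  have sub : ∀ y ∈ E σ d Q sd (t + 1) B, y ∈ E σ d Q sd t B ∨
      y ∈ (New σ d Q dt sd t).filter fun y => bl σ y = B := fun y hy => by
    obtain ⟨a, rfl, b⟩ := mem_filter.1 hy
    by_cases k : G σ d Q sd t (bl σ (d.lp t y)) (bl σ y)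
    · exact .inr (mem_filter.2 ⟨mem_filter.2 ⟨a, h2, k, b⟩, rfl⟩)
    · exact .inl (mem_filter.2 ⟨a, rfl, k⟩)
  split_ifs with k
  · obtain ⟨k1, ⟨B0, k2, k3⟩, -, k4⟩ := mem_filter.1 k
    obtain ⟨⟨u, hu, rfl⟩, -, a2, -⟩ := mem_O k1
    obtain ⟨⟨p, hp, rfl⟩, b1, -, b3⟩ := mem_O k2
    have hp' := (mem_filter.1 hp).1
    obtain ⟨⟨u1, u2⟩, u3⟩ := mem_P.1 (mem_filter.1 hu).1
    have g : G σ d Q sd t (bl σ p) (bl σ u) := ⟨fun C x y => a2 C (by omega) y, b3⟩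
    have s1 : E σ d Q sd t (bl σ u) ⊆ (d.P t).filter fun y => bl σ y = bl σ u := fun y hy => by
      obtain ⟨a, b, c⟩ := mem_filter.1 hy
      rw [mem_Ioo] at a
      refine mem_filter.2 ⟨by_contra fun hn => c (G_up hl ht g (bl_mono σ
        (above hd ht hp' (lt_of_bl (b ▸ k3)) a.2 hn)) ?_), b⟩
      exact b ▸ bl_mono σ ((hd.tree t ht.le).bnd y a.1 a.2).2.1.le
    have m1 : u ∈ E σ d Q sd t (bl σ u) := mem_filter.2
      ⟨mem_Ioo.2 ⟨(hd.step t ht).mem.1.trans u1, u2⟩, rfl, fun z => G_x hQ ht z u3.le u1.le⟩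
    obtain ⟨⟨-, t1, t2⟩, -⟩ := hTWO d hd t ht u hu
    obtain ⟨g1, g2⟩ := G_next hl ht g k3.le h2
    have m2 : u ∉ E σ d Q sd (t + 1) (bl σ u) := fun z => (mem_filter.1 z).2.2
      (G_up hl g1 g2 (bl_mono σ (t2 p hp' (lt_of_bl k3))) (bl_mono σ t1.le))
    have c1 := (card_le_card fun y hy => mem_union.2 ((sub y hy).imp_left fun z =>
      mem_erase.2 ⟨fun e : y = u => m2 (e ▸ hy), z⟩)).trans (card_union_le ((E σ d Q sd t _).erase u) _)
    have c2 := card_erase_add_one m1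
    have c3 := card_le_card s1
    omega
  · have c1 := (card_le_card fun y hy => mem_union.2 (sub y hy)).trans (card_union_le _ _)
    omega

theorem pot (hTWO : S_TWO) (hd : d.OK) (hQ : ∀ i < d.m, d.x i ∈ Q i)
    (hl : Lives d.m (lv σ d.L d.R Q) dt sd lab) (ht : t < d.m) (K : ℕ) :
    #(D σ d Q dt sd K t) + ∑ B ∈ S σ d Q sd t, (K - #(E σ d Q sd t B)) ≤
      ∑ B ∈ S σ d Q sd (t + 1), (K - #(E σ d Q sd (t + 1) B)) + K * #(dy σ d Q dt t) +
        #(New σ d Q dt sd t) := by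
  set V := (S σ d Q sd t).filter fun B => ¬ dt t B = t with hV
  have v1 : ∀ B ∈ V, t + 1 ≤ dt t B := fun B hB => by
    obtain ⟨a, b⟩ := mem_filter.1 hB
    have := (hl.rng t ht B (mem_filter.1 a).2.2.1).1
    omega
  have v2 : V ⊆ S σ d Q sd (t + 1) := fun B hB => by
    obtain ⟨a, -, b, c⟩ := mem_filter.1 (mem_filter.1 hB).1
    obtain ⟨a1, -, a3, -⟩ := hl.keep t ht (t + 1) B b (Nat.le_succ t) (v1 B hB)
    exact mem_filter.2 ⟨a, (v1 B hB).trans_lt (hl.rng t ht B b).2, a1, fun z => c (a3.1 z)⟩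
  have v3 : D σ d Q dt sd K t ⊆ V := fun B hB => by
    obtain ⟨k1, -, k2, -⟩ := mem_filter.1 hB
    obtain ⟨-, a1, a2, a3⟩ := mem_O k1
    have l := a2 B a1 le_rfl
    exact mem_filter.2 ⟨mem_filter.2 ⟨mem_Ioo.2 ⟨l.1, l.2.1⟩, ht, l, a3⟩, k2⟩
  have s1 := sum_le_sum fun B hB => item hTWO hd hQ hl ht K (v1 B hB)
  rw [sum_add_distrib, sum_add_distrib, sum_ite_mem, inter_eq_right.2 v3, ← card_eq_sum_ones,
    sum_card_fiberwise_eq_card_filter] at s1
  have s2 := sum_le_sum_of_subset (f := fun B => K - #(E σ d Q sd (t + 1) B)) v2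
  have s3 := card_filter_le (New σ d Q dt sd t) fun y => bl σ y ∈ V
  have s4 : ∑ B ∈ (S σ d Q sd t).filter fun B => dt t B = t, (K - #(E σ d Q sd t B)) ≤
      K * #(dy σ d Q dt t) := by
    refine (sum_le_card_nsmul _ _ K fun _ _ => Nat.sub_le _ _).trans ?_
    rw [smul_eq_mul, mul_comm]
    refine Nat.mul_le_mul_left K (card_le_card fun B hB => ?_)
    obtain ⟨a, b⟩ := mem_filter.1 hB
    exact mem_filter.2 ⟨(mem_filter.1 a).1, (mem_filter.1 a).2.2.1, b⟩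
  rw [← sum_filter_add_sum_filter_not (S σ d Q sd t) fun B => dt t B = t, ← hV]
  omega

theorem split (K t : ℕ) : K * #(O σ d Q sd t) ≤
    #(d.P t) + K * (1 + #(dy σ d Q dt t) + #(D σ d Q dt sd K t)) := by
  set H := (O σ d Q sd t).filter fun B => K < #((d.P t).filter fun y => bl σ y = B) with hH
  set W := (O σ d Q sd t).filter fun B => ¬ ∃ B0 ∈ O σ d Q sd t, B0 < B with hW
  have h1 : K * #H ≤ #(d.P t) := by
    have a := card_nsmul_le_sum H (fun B => #((d.P t).filter fun y => bl σ y = B)) K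
      fun B hB => (mem_filter.1 hB).2.le
    rw [sum_card_fiberwise_eq_card_filter, smul_eq_mul, mul_comm] at a
    exact a.trans (card_filter_le _ _)
  have h2 : #W ≤ 1 := card_le_one.2 fun a ha b hb => by
    obtain ⟨a1, a2⟩ := mem_filter.1 ha
    obtain ⟨b1, b2⟩ := mem_filter.1 hb
    exact le_antisymm (not_lt.1 fun k => a2 ⟨b, b1, k⟩) (not_lt.1 fun k => b2 ⟨a, a1, k⟩)
  have h3 : O σ d Q sd t ⊆ H ∪ (W ∪ (dy σ d Q dt t ∪ D σ d Q dt sd K t)) := fun B hB => by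
    obtain ⟨-, a1, a2, -⟩ := mem_O hB
    have l := a2 B a1 le_rfl
    simp only [mem_union]
    by_contra hn
    push Not at hn
    obtain ⟨n1, n2, n3, n4⟩ := hn
    exact n4 (mem_filter.2 ⟨hB, by_contra fun z => n2 (mem_filter.2 ⟨hB, z⟩),
      fun z => n3 (mem_filter.2 ⟨mem_Ioo.2 ⟨l.1, l.2.1⟩, l, z⟩),
      not_lt.1 fun z => n1 (mem_filter.2 ⟨hB, z⟩)⟩)
  have h4 := (card_le_card h3).trans ((card_union_le _ _).trans (Nat.add_le_add_left
    ((card_union_le _ _).trans (Nat.add_le_add h2 (card_union_le _ _))) _))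
  calc K * #(O σ d Q sd t) ≤ K * (#H + (1 + (#(dy σ d Q dt t) + #(D σ d Q dt sd K t)))) :=
      Nat.mul_le_mul_left K h4
    _ ≤ _ := by rw [mul_add K #H, add_assoc 1]; exact Nat.add_le_add_right h1 _

end RIGHTx

open RIGHTx in
theorem p_RIGHT (hTWO : S_TWO) (hEMIR : NU.S_EMIR) : S_RIGHT := by
  intro K σ d Q dt sd lab hd hQ hl
  have e1 : inst σ d Q dt = ∑ t ∈ range d.m, #(dy σ d Q dt t) := by
    simp only [inst, dy, card_filter, sum_product]
  have tel : ∀ n ≤ d.m, ∑ t ∈ range n, #(D σ d Q dt sd K t) ≤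
      ∑ B ∈ S σ d Q sd n, (K - #(E σ d Q sd n B)) +
        ∑ t ∈ range n, (K * #(dy σ d Q dt t) + (up d.mir (mq Q) t + 1)) := fun n hn => by
    induction n with
    | zero => simp
    | succ n ih =>
      have a := ih (by omega)
      have b := pot hTWO hd hQ hl (t := n) hn K
      have c := new_card hTWO hd ((hEMIR d).2 hd) hQ hl (t := n) hn
      rw [sum_range_succ, sum_range_succ]
      omega
  have h1 := tel d.m le_rfl
  have e2 : S σ d Q sd d.m = ∅ := filter_eq_empty_iff.2 fun _ _ h => lt_irrefl _ h.1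
  rw [e2, sum_empty, zero_add, sum_add_distrib, sum_add_distrib, ← mul_sum, ← e1,
    ← card_eq_sum_ones, card_range] at h1
  have h2 := sum_le_sum (s := range d.m) fun t _ =>
    split (σ := σ) (d := d) (Q := Q) (dt := dt) (sd := sd) K t
  rw [← mul_sum, sum_add_distrib, ← mul_sum, sum_add_distrib, sum_add_distrib, ← e1,
    ← card_eq_sum_ones, card_range] at h2
  refine h2.trans (Nat.add_le_add_left (Nat.mul_le_mul_left K ?_) _)
  rw [add_mul]
  omega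

end Pool.Agent.P.MP_119182_lc.IT
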