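import Pool.Agent.P.MP_119182_lc.IT.Iface

/-! Step SUM. -/

set_option autoImplicit false

namespace Pool.Agent.P.MP_119182_lc.IT

open Finset
open scoped Classical

namespace SUMx

theorem sm_le (L R : ℤ) {Q : Finset ℤ} {y z : ℤ} (hy : y ∉ Q) (hz : z ∈ Q) :
    sm L R Q y ≤ |y - z| := by
  rcases lt_or_gt_of_ne (ne_of_mem_of_not_mem hz hy) with h | h
  · have : z ≤ prv L Q y := le_max' _ _ (mem_insert_of_mem (mem_filter.2 ⟨hz, h⟩))
    exact (min_le_left _ _).trans ((sub_le_sub_left this y).trans (le_abs_self _))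
  · have : nxt R Q y ≤ z := min'_le _ _ (mem_insert_of_mem (mem_filter.2 ⟨hz, h⟩))
    rw [abs_sub_comm]
    exact (min_le_right _ _).trans ((sub_le_sub_right this y).trans (le_abs_self _))

theorem sm_insert (L R : ℤ) (Q : Finset ℤ) (w : ℤ) : sm L R (insert w Q) w = sm L R Q w := by
  simp only [sm, prv, nxt, filter_insert, lt_irrefl, if_false]

theorem del (hINS : S_INS) {L R : ℤ} (h : L < R) {Q Q' : Finset ℤ}
    (hQ : ∀ z ∈ Q', L < z ∧ z < R) (sub : Q ⊆ Q') (one : #(Q' \ Q) ≤ 1) :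
    Phi L R Q + 2 * ∑ y ∈ Q' \ Q, sm L R Q' y ≤ Phi L R Q' := by
  rcases (Q' \ Q).eq_empty_or_nonempty with e | ⟨w, hw⟩
  · rw [e, Subset.antisymm sub (sdiff_eq_empty_iff_subset.1 e), sum_empty, mul_zero, add_zero]
  · have e : Q' \ Q = {w} := eq_singleton_iff_unique_mem.2
      ⟨hw, fun z hz => card_le_one.1 one z hz w hw⟩
    obtain ⟨h1, h2⟩ := mem_sdiff.1 hw
    have e' : Q' = insert w Q := by rw [← sdiff_union_of_subset sub, e, insert_eq]
    rw [e, sum_singleton, e', sm_insert]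
    exact ((hINS L R Q h fun z hz => hQ z (sub hz)).2.2 w (hQ w h1).1 (hQ w h1).2 h2).1

end SUMx

theorem p_SUM (hINS : S_INS) : S_SUM := by
  intro L R m x c Z Q h hM h1
  obtain ⟨del, hZ, hd⟩ := hM.near
  have key : ∀ n < m, Phi L R (Q n) + 2 * ∑ i ∈ range n,
      ((if x (i + 1) ∈ Q i then 0 else sm L R (Q i) (x (i + 1))) +
        ∑ y ∈ insert (x (i + 1)) (Q i) \ Q (i + 1), sm L R (insert (x (i + 1)) (Q i)) y) ≤
      Phi L R (Q 0) + 2 * (c + 2) * ((∑ i ∈ range n, del i : ℕ) : ℤ) := by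
    intro n
    induction n with
    | zero => simp
    | succ n ih =>
      intro hn
      have h2 := ih (Nat.lt_of_succ_lt hn)
      have hx := hM.mem _ hn _ (hM.own _ hn)
      have hq := hM.mem n (Nat.lt_of_succ_lt hn)
      have h3 := SUMx.del hINS h (fun z hz => (mem_insert.1 hz).elim (fun e => e ▸ hx) (hq z))
        (hM.sub n hn) (h1 n hn)
      have h4 : (#(Q n) : ℤ) ≤ c := by exact_mod_cast hM.card n (Nat.lt_of_succ_lt hn)
      have h5 : (0 : ℤ) ≤ del n := Nat.cast_nonneg _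
      have h6 : (0 : ℤ) ≤ c := Nat.cast_nonneg _
      rw [sum_range_succ, sum_range_succ, Nat.cast_add]
      split_ifs with h7
      · have h8 : Phi L R (insert (x (n + 1)) (Q n)) = Phi L R (Q n) := by
          rw [insert_eq_of_mem h7]
        nlinarith [mul_nonneg h6 h5]
      · obtain ⟨z, hz, h8⟩ := hd n hn
        have h9 := (SUMx.sm_le L R h7 hz).trans h8
        have h10 := ((hINS L R (Q n) h hq).2.2 _ hx.1 hx.2 h7).2
        have h11 := mul_le_mul_of_nonneg_left h9 (by positivity : (0 : ℤ) ≤ 2 * (#(Q n) + 1))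
        have h12 := mul_le_mul_of_nonneg_right h4 h5
        nlinarith
  have h2 : (0 : ℤ) < R - L := sub_pos.2 h
  rcases Nat.eq_zero_or_pos m with rfl | hm
  · simp only [Nat.zero_sub, range_zero, sum_empty]
    positivity
  have h3 := key (m - 1) (by omega)
  have h4 := (hINS L R _ h (hM.mem (m - 1) (by omega))).1
  have h5 := (hINS L R _ h (hM.mem 0 hm)).2.1
  have h6 : (#(Q 0) : ℤ) ≤ c := by exact_mod_cast hM.card 0 hm
  have h7 : ((#(Q 0) : ℤ) + 1) ^ 2 * (R - L) ≤ (c + 2) ^ 2 * (R - L) := by gcongr; norm_num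
  have h8 : 2 * ((c : ℤ) + 2) * ((∑ i ∈ range (m - 1), del i : ℕ) : ℤ) ≤ 2 * (c + 2) ^ 2 * Z := by
    gcongr
    exact le_self_pow₀ (by omega) two_ne_zero
  have h9 : (0 : ℤ) ≤ (c + 2) ^ 2 * (R - L) := by positivity
  linarith

end Pool.Agent.P.MP_119182_lc.IT
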