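import Pool.Agent.P.MP_119182_lc.IT.Iface

/-! The shape of links and the telescoping of a potential along a path. -/

set_option autoImplicit false

namespace Pool.Agent.P.MP_119182_lc.IT

open Finset
open scoped Classical
open NU (Run mr)

namespace TWOx

theorem tele (a b : ℤ → ℕ) (U : Finset ℤ) : ∀ G : ℕ, (∀ u ∈ U, b u ≤ G) →
    (∀ u ∈ U, ∀ v ∈ U, u < v → b u ≤ a v) → ∑ u ∈ U, b u ≤ ∑ u ∈ U, a u + G := by
  induction U using Finset.induction_on_max with
  | empty => simp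
  | insert v s hv ih =>
    intro G h1 h2
    have hn : v ∉ s := fun h => lt_irrefl _ (hv v h)
    have e1 := ih (a v) (fun u hu => h2 u (mem_insert_of_mem hu) v (mem_insert_self _ _) (hv u hu))
      fun u hu w hw => h2 u (mem_insert_of_mem hu) w (mem_insert_of_mem hw)
    have e2 := h1 v (mem_insert_self _ _)
    rw [sum_insert hn, sum_insert hn]
    omega

end TWOx

theorem p_TWO : S_TWO := by
  intro d hd t ht u hu
  obtain ⟨a1, a2, a3, a4, a5, a6, a7⟩ := Run.link hd ht hu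
  obtain ⟨b1, b2⟩ := Run.mem_U.1 hu
  obtain ⟨c1, c2, c3⟩ := Run.mem_P.1 a1
  obtain ⟨c4, c5, -⟩ := Run.mem_P.1 b1
  have hL := (hd.step t ht).mem.1
  refine ⟨⟨a1, a2, fun y hy h => ?_⟩, fun y hy h => Run.P_gap hd ht b1 hy h, ⟨a5, a6, a7, ?_⟩,
    fun v hv h => ?_⟩
  · by_contra hc
    have := Run.P_gap hd ht a1 hy (not_le.1 hc)
    omega
  · by_cases h : d.rp (t + 1) (d.lp (t + 1) u) = d.rp t (d.lp (t + 1) u)
    · have := (hd.tree (t + 1) ht).ancL u (by omega) c5 (by omega)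
      omega
    · have := ((hd.step t ht).lowR _ c1 c2 c3 h).2.2
      rw [this, a5]
  · obtain ⟨e1, -, -, -, e5, -, e7⟩ := Run.link hd ht hv
    rcases lt_trichotomy u (d.lp (t + 1) v) with e | e | e
    · exact Run.P_gap hd ht b1 e1 e
    · exact absurd (by rw [e]; exact e7) b2
    · have := Run.P_gap hd ht e1 b1 e
      omega

theorem p_PAIR (hTWO : S_TWO) : S_PAIR := by
  intro d hd t ht φ φ' g G c hg hG h1 h2
  have hT := hTWO d hd t ht
  have hL := (hd.step t ht).mem.1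
  have inj : ∀ u ∈ d.U t, ∀ v ∈ d.U t, d.lp (t + 1) u = d.lp (t + 1) v → u = v := by
    intro u hu v hv h
    have e1 := (hT u hu).2.2.1.1
    have e2 := (hT v hv).2.2.1.1
    rw [h] at e1
    omega
  have dis : Disjoint (d.U t) ((d.U t).image (d.lp (t + 1))) := by
    refine disjoint_left.2 fun v hv hv' => ?_
    obtain ⟨u, hu, rfl⟩ := mem_image.1 hv'
    exact (Run.mem_U.1 hv).2 (hT u hu).2.2.1.2.2.1
  have sub : d.U t ∪ (d.U t).image (d.lp (t + 1)) ⊆ Ioo (d.x t) d.R := by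
    intro v hv
    rcases mem_union.1 hv with h | h
    · obtain ⟨e1, e2, -⟩ := Run.mem_P.1 (Run.mem_U.1 h).1
      exact mem_Ioo.2 ⟨e1, e2⟩
    · obtain ⟨u, hu, rfl⟩ := mem_image.1 h
      obtain ⟨e1, e2, -⟩ := Run.mem_P.1 (hT u hu).1.1
      exact mem_Ioo.2 ⟨e1, e2⟩
  have split : ∀ f : ℤ → ℕ, ∑ v ∈ Ioo (d.x t) d.R, f v =
      ∑ v ∈ Ioo (d.x t) d.R \ (d.U t ∪ (d.U t).image (d.lp (t + 1))), f v +
        ∑ u ∈ d.U t, (f (d.lp (t + 1) u) + f u) := by
    intro f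
    rw [← sum_sdiff sub, sum_union dis, sum_image inj, sum_add_distrib]
    omega
  have rest : ∑ v ∈ Ioo (d.x t) d.R \ (d.U t ∪ (d.U t).image (d.lp (t + 1))), φ' v ≤
      ∑ v ∈ Ioo (d.x t) d.R \ (d.U t ∪ (d.U t).image (d.lp (t + 1))), φ v := by
    refine sum_le_sum fun v hv => ?_
    obtain ⟨e1, e2⟩ := mem_sdiff.1 hv
    obtain ⟨e3, e4⟩ := mem_Ioo.1 e1
    by_cases h : d.lp t v < d.x t
    · have e5 : d.lp (t + 1) v = d.x t := by
        by_contra hc
        exact e2 (mem_union_left _ (Run.mem_U.2 ⟨Run.mem_P.2 ⟨e3, e4, h⟩, hc⟩))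
      refine h2 v e3 e4 ?_ (Or.inr ⟨h, e5⟩)
      by_contra hc
      obtain ⟨f1, f2, -⟩ := (hd.step t ht).lowR v e3 e4 h hc
      have f3 := (hd.tree t ht.le).ancR v (by omega) e4 f1
      have f4 := (hd.tree t ht.le).bnd v (by omega) e4
      exact e2 (mem_union_right _ (mem_image.2 ⟨d.rp t v,
        Run.mem_U.2 ⟨Run.mem_P.2 ⟨by omega, f1, by omega⟩, by omega⟩, f2⟩))
    · obtain ⟨f1, f2⟩ := (hd.step t ht).off v (by omega) e4 (by omega) fun hc => h hc.1
      exact h2 v e3 e4 f2 (Or.inl f1)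
  have lnk := sum_le_sum h1
  have tel := TWOx.tele (fun u => g (d.lp (t + 1) u)) (fun u => g (d.rp t u)) (d.U t) G
    (fun u _ => hG _) fun u hu v hv h => hg ((hT u hu).2.2.2 v hv h)
  rw [split φ, split φ', card_filter]
  rw [sum_add_distrib, sum_add_distrib, sum_add_distrib (s := d.U t)
    (f := fun u => φ (d.lp (t + 1) u) + φ u), ← mul_sum, ← mul_sum] at lnk
  omega

end Pool.Agent.P.MP_119182_lc.IT
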