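import Pool.Agent.P.MP_119182_lc.IT.Iface

/-! Step UP. -/

set_option autoImplicit false

namespace Pool.Agent.P.MP_119182_lc.IT

open Finset
open scoped Classical
open NU (Run mr)

namespace UPx

/-- The binary size of the number of marks strictly between `a` and `b`. -/
noncomputable def sz (M : Finset ℤ) (a b : ℤ) : ℕ := Nat.size #(M.filter fun z => a < z ∧ z < b)

theorem key {a b n : ℕ} (h : a + b ≤ n) (hn : 0 < n) :
    Nat.size a + Nat.size b + 1 ≤ 2 * Nat.size n := by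
  have ha : Nat.size a ≤ Nat.size n := Nat.size_le_size (by omega)
  have hb : Nat.size b ≤ Nat.size n := Nat.size_le_size (by omega)
  obtain ⟨k, hk⟩ : ∃ k, Nat.size n = k + 1 := ⟨Nat.size n - 1, by have := Nat.size_pos.2 hn; omega⟩
  have h1 : n < 2 ^ (k + 1) := hk ▸ Nat.lt_size_self n
  by_contra hc
  have h2 : 2 ^ k ≤ a := Nat.lt_size.1 (by omega)
  have h3 : 2 ^ k ≤ b := Nat.lt_size.1 (by omega)
  omega

theorem sz_le {M N : Finset ℤ} {a b a' b' : ℤ}
    (h : ∀ z ∈ N, a < z → z < b → z ∈ M ∧ a' < z ∧ z < b') : sz N a b ≤ sz M a' b' :=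
  Nat.size_le_size (card_le_card fun z hz => by
    obtain ⟨h1, h2, h3⟩ := mem_filter.1 hz
    exact mem_filter.2 (h z h1 h2 h3))

theorem sz_top {N : Finset ℤ} {c : ℕ} (h : #N ≤ c) (a b : ℤ) : sz N a b ≤ Nat.size c :=
  Nat.size_le_size ((card_filter_le _ _).trans h)

theorem sz_split (N : Finset ℤ) {a p b : ℤ} (h1 : a ≤ p) (h2 : p ≤ b)
    (_ : Decidable (∃ z ∈ N, a < z ∧ z < b)) :
    sz N a p + sz N p b + (if ∃ z ∈ N, a < z ∧ z < b then 1 else 0) ≤ 2 * sz N a b := by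
  split_ifs with h
  · obtain ⟨z, hz⟩ := h
    refine key ?_ (card_pos.2 ⟨z, mem_filter.2 hz⟩)
    rw [← card_union_of_disjoint (disjoint_filter.2 fun z _ k1 k2 => by omega)]
    refine card_le_card fun z hz => ?_
    rcases mem_union.1 hz with k | k <;> obtain ⟨k1, k2⟩ := mem_filter.1 k <;>
      exact mem_filter.2 ⟨k1, by omega⟩
  · have k1 : sz N a p ≤ sz N a b := sz_le fun z k _ _ => ⟨k, by omega⟩
    have k2 : sz N p b ≤ sz N a b := sz_le fun z k _ _ => ⟨k, by omega⟩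
    omega

theorem sz_mr (N : Finset ℤ) (a b : ℤ) : sz (N.image mr) (mr b) (mr a) = sz N a b := by
  unfold sz
  rw [filter_image, card_image_of_injective _ fun _ _ h => NU.mr_inj.1 h]
  simp only [NU.mr_lt, and_comm]

theorem sum_mr (f : ℤ → ℕ) (a b : ℤ) :
    ∑ v ∈ Ioo (mr b) (mr a), f (mr v) = ∑ v ∈ Ioo a b, f v := by
  refine sum_nbij' mr mr (fun v hv => ?_) (fun v hv => ?_) (fun v _ => NU.mr_mr v)
    (fun v _ => NU.mr_mr v) fun v _ => rfl
  all_goals
    simp only [mem_Ioo, mr] at hv ⊢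
    omega

theorem right (hTWO : S_TWO) (hPAIR : S_PAIR) {d : Run} (hd : d.OK) {t : ℕ} (ht : t < d.m)
    {M N : Finset ℤ} {c : ℕ} (hc : #N ≤ c) (hM : ∀ z ∈ N, z ≠ d.x t → z ∈ M) :
    ∑ v ∈ Ioo (d.x t) d.R, sz N (d.lp (t + 1) v) (d.rp (t + 1) v) +
      #((d.U t).filter fun u => ∃ z ∈ N, d.x t < z ∧ z < d.rp t u) ≤
      ∑ v ∈ Ioo (d.x t) d.R, sz M (d.lp t v) (d.rp t v) + 2 * Nat.size c := by
  have s := hd.step t ht
  refine (le_of_eq (by congr)).trans <| hPAIR d hd t ht (fun v => sz M (d.lp t v) (d.rp t v))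
    (fun v => sz N (d.lp (t + 1) v) (d.rp (t + 1) v)) (fun v => sz N (d.x t) v) (Nat.size c)
    (fun u => ∃ z ∈ N, d.x t < z ∧ z < d.rp t u)
    (fun a b h => sz_le fun z k _ _ => ⟨k, by omega⟩) (fun v => sz_top hc _ _)
    (fun u hu => ?_) fun v h1 h2 h3 h4 => sz_le fun z k k1 k2 => ?_
  · obtain ⟨⟨a1, a2, -⟩, -, ⟨e1, e2, e3, e4⟩, -⟩ := hTWO d hd t ht u hu
    obtain ⟨b1, b2⟩ := mem_filter.1 a1
    obtain ⟨b3, b4⟩ := mem_filter.1 (mem_filter.1 hu).1
    rw [mem_Ioo] at b1 b3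
    have b5 := (hd.tree t ht.le).bnd u (s.mem.1.trans b3.1) b3.2
    have k0 := sz_split N b1.1.le (show d.lp (t + 1) u ≤ d.rp t u by omega)
      (Classical.propDecidable _)
    have k1 : sz N (d.x t) (d.lp (t + 1) u) ≤ sz M (d.lp t (d.lp (t + 1) u)) u :=
      sz_le fun z k _ _ => ⟨hM z k (by omega), by omega⟩
    have k2 : sz N (d.x t) (d.rp t u) ≤ sz M (d.lp t u) (d.rp t u) :=
      sz_le fun z k _ _ => ⟨hM z k (by omega), by omega⟩
    simp only [e1, e2, e3, e4]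
    omega
  · have b : d.x t ≤ d.lp (t + 1) v := by
      by_contra hn
      have := (hd.tree (t + 1) ht).lamL v (d.x t) (s.mem.1.trans h1) h2 (by omega) h1
      have := s.root
      omega
    exact ⟨hM z k (by omega), by omega⟩

theorem split (f : ℤ → ℕ) {a x b : ℤ} (h1 : a < x) (h2 : x < b) :
    ∑ v ∈ Ioo a b, f v = ∑ v ∈ Ioo a x, f v + f x + ∑ v ∈ Ioo x b, f v := by
  have e : Ioo a b = Ioo a x ∪ insert x (Ioo x b) := by
    ext v
    simp only [mem_union, mem_insert, mem_Ioo]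
    omega
  rw [e, sum_union (disjoint_left.2 fun v k1 k2 => ?_), sum_insert (by simp), add_assoc]
  simp only [mem_insert, mem_Ioo] at k1 k2
  omega

theorem step (hTWO : S_TWO) (hPAIR : S_PAIR) (hEMIR : NU.S_EMIR) {d : Run} (hd : d.OK) {t : ℕ}
    (ht : t < d.m) {M N : Finset ℤ} {c : ℕ} (hc : #N ≤ c) (hM : ∀ z ∈ N, z ≠ d.x t → z ∈ M) :
    ∑ v ∈ Ioo d.L d.R, sz N (d.lp (t + 1) v) (d.rp (t + 1) v) +
      #((d.U t).filter fun u => ∃ z ∈ N, d.x t < z ∧ z < d.rp t u) ≤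
      ∑ v ∈ Ioo d.L d.R, sz M (d.lp t v) (d.rp t v) + 5 * Nat.size c := by
  have s := (hd.step t ht).mem
  have k1 := right hTWO hPAIR hd ht hc hM
  have k2 := (Nat.le_add_right _ _).trans (right hTWO hPAIR ((hEMIR d).2 hd) (t := t) ht
    (M := M.image mr) (N := N.image mr) (card_image_le.trans hc) fun z hz h => by
      obtain ⟨y, hy, rfl⟩ := mem_image.1 hz
      exact mem_image_of_mem _ (hM y hy fun e => h (congrArg mr e)))
  simp only [Run.mir, sz_mr] at k2
  rw [sum_mr (fun v => sz N (d.lp (t + 1) v) (d.rp (t + 1) v)),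
    sum_mr fun v => sz M (d.lp t v) (d.rp t v)] at k2
  have k3 := sz_top hc (d.lp (t + 1) (d.x t)) (d.rp (t + 1) (d.x t))
  rw [split _ s.1 s.2, split (fun v => sz M (d.lp t v) (d.rp t v)) s.1 s.2]
  omega

end UPx

open UPx in
theorem p_UP (hTWO : S_TWO) (hPAIR : S_PAIR) (hEMIR : NU.S_EMIR) : S_UP := by
  intro d c Z Q hd hQ
  rcases Nat.eq_zero_or_pos d.m with h0 | h0
  · simp [h0]
  have main : ∀ k ≤ d.m,
      ∑ v ∈ Ioo d.L d.R, sz (Q (k - 1)) (d.lp k v) (d.rp k v) + ∑ t ∈ range k, up d Q t ≤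
        Nat.size c * (d.R - d.L).toNat + 5 * Nat.size c * k := by
    intro k hk
    induction k with
    | zero =>
      have := sum_le_card_nsmul (Ioo d.L d.R) (fun v => sz (Q 0) (d.lp 0 v) (d.rp 0 v)) _
        fun v _ => sz_top (hQ.card 0 h0) _ _
      rw [Int.card_Ioo, smul_eq_mul, mul_comm] at this
      simpa using this.trans (Nat.mul_le_mul_left _ (by omega))
    | succ k ih =>
      have k1 := ih (by omega)
      have k2 := step hTWO hPAIR hEMIR hd (t := k) hk (M := Q (k - 1)) (hQ.card k hk)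
        fun z hz h => by
          rcases k with _ | k
          · exact hz
          · exact (mem_insert.1 (hQ.sub k hk hz)).resolve_left h
      rw [sum_range_succ, Nat.add_sub_cancel, mul_add, mul_one]
      unfold up at k1 ⊢
      omega
  have := main d.m le_rfl
  rw [mul_add, ← mul_assoc, mul_comm _ 5]
  omega

end Pool.Agent.P.MP_119182_lc.IT
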