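import Pool.Agent.P.MP_119182_lc.CO.All
import Pool.Agent.P.MP_119182_lc.NU.All
import Pool.Agent.P.MP_119182_lc.IT.TCM
import Pool.Agent.P.MP_119182_lc.IT.TIF
import Pool.Agent.P.MP_119182_lc.IT.TLAZY
import Pool.Agent.P.MP_119182_lc.IT.TINS
import Pool.Agent.P.MP_119182_lc.IT.TSUM
import Pool.Agent.P.MP_119182_lc.IT.TKILL
import Pool.Agent.P.MP_119182_lc.IT.TDTH
import Pool.Agent.P.MP_119182_lc.IT.TTWO
import Pool.Agent.P.MP_119182_lc.IT.TFRAME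
import Pool.Agent.P.MP_119182_lc.IT.TEV
import Pool.Agent.P.MP_119182_lc.IT.TLEFT
import Pool.Agent.P.MP_119182_lc.IT.TRIGHT
import Pool.Agent.P.MP_119182_lc.IT.TUP
import Pool.Agent.P.MP_119182_lc.IT.TINT
import Pool.Agent.P.MP_119182_lc.IT.TCLS
import Pool.Agent.P.MP_119182_lc.IT.TLINK
import Pool.Agent.P.MP_119182_lc.IT.TFIN

/-! All steps together. -/

set_option autoImplicit false

namespace Pool.Agent.P.MP_119182_lc.IT

theorem a_IF : S_IF := p_IF (p_CM CO.coreBound)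

theorem a_LEFT : S_LEFT := p_LEFT (p_EV a_IF (p_FRAME p_TWO))

theorem a_LINK : S_LINK :=
  p_LINK p_LAZY (p_KILL (p_SUM p_INS)) p_DTH a_LEFT (p_RIGHT p_TWO NU.a_EMIR)
    (p_UP p_TWO (p_PAIR p_TWO) NU.a_EMIR) (p_INT p_TWO (p_PAIR p_TWO) NU.a_EMIR) (p_CLS p_TWO)
    NU.a_EMIR

theorem a_FIN : S_FIN := p_FIN a_LINK p_LAZY NU.a_ALGA NU.a_BRG NU.a_TURN NU.a_EMIR

end Pool.Agent.P.MP_119182_lc.IT
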