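import Pool.Agent.P.MP_119182_lc.NU.EIface
import Pool.Agent.P.MP_119182_lc.CO.Base

/-! Lives of items and the steps of the link bound with an absolute constant. -/

set_option autoImplicit false

namespace Pool.Agent.P.MP_119182_lc.IT

open Finset
open scoped Classical
open NU (Run mr)

/-! ### Frames with several lifts per time -/

/-- The hypotheses of a frame with lift sets `Z`. -/
structure OKM (c : CO.Core) (Z : ℕ → Finset ℤ) : Prop where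
  mono : Monotone c.x
  le : ∀ t, ∀ y ∈ c.P t, y ≤ c.r t
  lk : ∀ t, ∀ u ∈ c.U t, u ∈ c.P t ∧ c.lo t u ∈ c.P t ∧ c.lo t u < u
  same : ∀ t, ∀ u ∈ c.U t, ∀ v ∈ c.U t, u < v → u < c.lo t v
  frU : ∀ t t', ∀ u ∈ c.U t, ∀ v ∈ c.U t', t < t' → c.x t' < c.lo t u → c.lo t u < v → u < v
  frL : ∀ t t', ∀ u ∈ c.U t, ∀ v ∈ c.U t', t < t' → c.x t' < c.lo t u →
    c.lo t u < c.lo t' v → u < c.lo t' v
  on : ∀ t t', ∀ u ∈ c.U t, ∀ v ∈ c.U t', t < t' → c.x t' < c.lo t u → c.lo t u < v →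
    v ∈ c.P t ∨ c.r t < v
  hid : ∀ z t t', ∀ u ∈ c.U t, ∀ v ∈ c.U t', z < t → t < t' → c.x t' < c.lo t u →
    (c.U z).Nonempty → v < c.r z → c.r t < v → ∃ q ∈ c.A, z ≤ q ∧ q < t ∧ v ∈ Z q

-- deps: CoreBound
def S_CM : Prop :=
  ∃ C : ℕ, ∀ (K : ℕ) (c : CO.Core) (Z : ℕ → Finset ℤ) (n : ℕ) (sl : ℤ → ℕ), OKM c Z →
    Monotone sl → (∀ y, sl y < n) →
    K * c.cnt sl ≤ 2 * (c.N + ∑ t ∈ c.A, #(Z t)) + 2 * K * c.own + C * (K + 1) ^ 6 * n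

/-! ### A frame of item lives -/

/-- Times below `m`, items between `b0` and `b1`; `al t B`: the item is alive in the frame,
`dt t B`: its last time, `met t`: items met, `ev t`: events. -/
structure Fr where
  m : ℕ
  b0 : ℤ
  b1 : ℤ
  al : ℕ → ℤ → Prop
  dt : ℕ → ℤ → ℕ
  met : ℕ → Finset ℤ
  ev : ℕ → Finset ℤ

namespace Fr

variable (f : Fr)

structure OK : Prop where
  rng : ∀ t B, f.al t B → t ≤ f.dt t B ∧ f.dt t B < f.m ∧ f.b0 < B ∧ B < f.b1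
  keep : ∀ t t' B, f.al t B → t ≤ t' → t' ≤ f.dt t B → f.al t' B ∧ f.dt t' B = f.dt t B
  mono : ∀ t B B', f.al t B → f.al t B' → B ≤ B' → f.dt t B ≤ f.dt t B'
  cvx : ∀ t B B' B'', f.al t B → f.al t B'' → B ≤ B' → B' ≤ B'' → f.al t B'
  sub : ∀ t, ∀ B ∈ f.met t, f.al t B
  low : ∀ t, ∀ B ∈ f.ev t, B ∈ f.met t ∧ ∃ B0 ∈ f.met t, B0 < B
  on : ∀ t t', ∀ B0 ∈ f.met t, ∀ B1 ∈ f.met t, ∀ B ∈ f.met t', B0 < B → B < B1 → t < t' →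
    t' ≤ f.dt t B0 → B ∈ f.met t
  col : ∀ t t', ∀ B ∈ f.ev t, B ∈ f.ev t' → ∀ B0 ∈ f.met t, B0 < B →
    (∀ B' ∈ f.met t, B' < B → B' ≤ B0) → t < t' → f.dt t B0 < t'
  hid : ∀ z t t', ∀ B1 ∈ f.met z, ∀ B0 ∈ f.met t, ∀ B ∈ f.met t', z < t → t < t' → B0 < B →
    B < B1 → t' ≤ f.dt t B0 → t' ≤ f.dt z B1 → f.al z B → t' ≤ f.dt z B → B ∉ f.met t →
    ∃ q, z ≤ q ∧ q < t ∧ B ∈ f.met q

/-- The number of lives. -/
noncomputable def inst : ℕ :=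
  #((range f.m ×ˢ Ioo f.b0 f.b1).filter fun p => f.al p.1 p.2 ∧ f.dt p.1 p.2 = p.1)

end Fr

-- deps: CM
def S_IF : Prop :=
  ∃ C : ℕ, ∀ (K : ℕ) (f : Fr), f.OK →
    K * ∑ t ∈ range f.m, #(f.ev t) ≤ 6 * ∑ t ∈ range f.m, #(f.met t) +
      2 * K * #((range f.m).filter fun t => (f.ev t).Nonempty) + C * (K + 1) ^ 6 * f.inst

/-! ### Marks and lives -/

/-- The item of a key. -/
def bl (σ : ℕ) (v : ℤ) : ℤ := v / 2 ^ σ

/-- At most `c` marks; each access is near an earlier mark, total distance at most `Z`. -/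
structure Marks (L R : ℤ) (m : ℕ) (x : ℕ → ℤ) (c Z : ℕ) (Q : ℕ → Finset ℤ) : Prop where
  card : ∀ i < m, #(Q i) ≤ c
  mem : ∀ i < m, ∀ z ∈ Q i, L < z ∧ z < R
  own : ∀ i < m, x i ∈ Q i
  sub : ∀ i, i + 1 < m → Q (i + 1) ⊆ insert (x (i + 1)) (Q i)
  near : ∃ del : ℕ → ℕ, ∑ i ∈ range (m - 1), del i ≤ Z ∧
    ∀ i, i + 1 < m → ∃ z ∈ Q i, |x (i + 1) - z| ≤ del i

/-- At most one mark is deleted per step. -/
def One (m : ℕ) (x : ℕ → ℤ) (Q : ℕ → Finset ℤ) : Prop :=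
  ∀ i, i + 1 < m → #(insert (x (i + 1)) (Q i) \ Q (i + 1)) ≤ 1

/-- The mirrored marks. -/
noncomputable def mq (Q : ℕ → Finset ℤ) (i : ℕ) : Finset ℤ := (Q i).image mr

-- deps:
def S_LAZY : Prop :=
  ∀ (L R : ℤ) (m : ℕ) (x : ℕ → ℤ) (c Z : ℕ) (Q : ℕ → Finset ℤ), Marks L R m x c Z Q →
    (∃ Q', Marks L R m x c Z Q' ∧ One m x Q') ∧
    Marks (mr R) (mr L) m (fun i => mr (x i)) c Z (mq Q)

/-- The last point of `insert L Q` below `y`. -/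
noncomputable def prv (L : ℤ) (Q : Finset ℤ) (y : ℤ) : ℤ :=
  (insert L (Q.filter fun z => z < y)).max' (insert_nonempty _ _)

/-- The first point of `insert R Q` above `y`. -/
noncomputable def nxt (R : ℤ) (Q : Finset ℤ) (y : ℤ) : ℤ :=
  (insert R (Q.filter fun z => y < z)).min' (insert_nonempty _ _)

/-- The length of the smaller side of `y`. -/
noncomputable def sm (L R : ℤ) (Q : Finset ℤ) (y : ℤ) : ℤ := min (y - prv L Q y) (nxt R Q y - y)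

/-- The sum over pairs of gaps of the smaller length. -/
noncomputable def Phi (L R : ℤ) (Q : Finset ℤ) : ℤ :=
  ∑ a ∈ insert L Q, ∑ b ∈ insert L Q, min (nxt R Q a - a) (nxt R Q b - b)

-- deps:
def S_INS : Prop :=
  ∀ (L R : ℤ) (Q : Finset ℤ), L < R → (∀ z ∈ Q, L < z ∧ z < R) →
    0 ≤ Phi L R Q ∧ Phi L R Q ≤ (#Q + 1) ^ 2 * (R - L) ∧
    ∀ y, L < y → y < R → y ∉ Q → Phi L R Q + 2 * sm L R Q y ≤ Phi L R (insert y Q) ∧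
      Phi L R (insert y Q) ≤ Phi L R Q + 2 * (#Q + 1) * sm L R Q y

-- deps: INS
def S_SUM : Prop :=
  ∀ (L R : ℤ) (m : ℕ) (x : ℕ → ℤ) (c Z : ℕ) (Q : ℕ → Finset ℤ), L < R → Marks L R m x c Z Q →
    One m x Q →
    ∑ i ∈ range (m - 1), ((if x (i + 1) ∈ Q i then 0 else sm L R (Q i) (x (i + 1))) +
      ∑ y ∈ insert (x (i + 1)) (Q i) \ Q (i + 1), sm L R (insert (x (i + 1)) (Q i)) y) ≤
      (c + 2) ^ 2 * (R - L + Z)

/-- The item `B` holds no mark and no end. -/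
def lv (σ : ℕ) (L R : ℤ) (Q : ℕ → Finset ℤ) (t : ℕ) (B : ℤ) : Prop :=
  bl σ L < B ∧ B < bl σ R ∧ ∀ z ∈ Q t, bl σ z ≠ B

/-- All items from `B` to `B'` are free. -/
def conn (l : ℕ → ℤ → Prop) (t : ℕ) (B B' : ℤ) : Prop := ∀ B'', B ≤ B'' → B'' ≤ B' → l t B''

/-- Kill rules: a prefix and a suffix of each gap. -/
structure Kill (m : ℕ) (l KL KR : ℕ → ℤ → Prop) : Prop where
  pre : ∀ t B B', t + 1 < m → B ≤ B' → conn l t B B' → KL t B' → KL t B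
  suf : ∀ t B B', t + 1 < m → B ≤ B' → conn l t B B' → KR t B → KR t B'
  sur : ∀ t B, t + 1 < m → l t B → ¬ KL t B → ¬ KR t B → l (t + 1) B
  con : ∀ t B B', t + 1 < m → B ≤ B' → l t B → ¬ KL t B → ¬ KR t B → l t B' → ¬ KL t B' →
    ¬ KR t B' → (conn l t B B' ↔ conn l (t + 1) B B')

-- deps: SUM
def S_KILL : Prop :=
  ∀ (σ : ℕ) (L R : ℤ) (m : ℕ) (x : ℕ → ℤ) (c Z : ℕ) (Q : ℕ → Finset ℤ), L < R →
    Marks L R m x c Z Q → One m x Q →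
    ∃ KL KR, Kill m (lv σ L R Q) KL KR ∧
      2 ^ σ * #((range (m - 1) ×ˢ Ioo (bl σ L) (bl σ R)).filter fun p =>
        lv σ L R Q p.1 p.2 ∧ (KL p.1 p.2 ∨ KR p.1 p.2)) ≤
        2 ^ σ * (2 * m) + (c + 2) ^ 2 * ((R - L).toNat + Z)

/-- Last times, sides (`sd` = dies from the left) and labels of the lives. -/
structure Lives (m : ℕ) (l : ℕ → ℤ → Prop) (dt : ℕ → ℤ → ℕ) (sd : ℕ → ℤ → Prop)
    (lab : ℕ → ℤ → ℕ × ℤ) : Prop where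
  rng : ∀ t < m, ∀ B, l t B → t ≤ dt t B ∧ dt t B < m
  keep : ∀ t < m, ∀ t' B, l t B → t ≤ t' → t' ≤ dt t B →
    l t' B ∧ dt t' B = dt t B ∧ (sd t' B ↔ sd t B) ∧ lab t' B = lab t B
  gap : ∀ t < m, ∀ B B', l t B → l t B' → B ≤ B' → (lab t B = lab t B' ↔ conn l t B B')
  left : ∀ t < m, ∀ B B', B ≤ B' → conn l t B B' → sd t B' → sd t B ∧ dt t B ≤ dt t B'
  right : ∀ t < m, ∀ B B', B ≤ B' → conn l t B B' → ¬ sd t B → ¬ sd t B' ∧ dt t B' ≤ dt t B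

-- deps:
def S_DTH : Prop :=
  ∀ (m : ℕ) (b0 : ℤ) (l KL KR : ℕ → ℤ → Prop), (∀ t B, l t B → b0 < B) → Kill m l KL KR →
    ∃ dt sd lab, Lives m l dt sd lab ∧
      ∀ t B, t + 1 < m → l t B → dt t B = t → KL t B ∨ KR t B

/-- The number of lives. -/
noncomputable def inst (σ : ℕ) (d : Run) (Q : ℕ → Finset ℤ) (dt : ℕ → ℤ → ℕ) : ℕ :=
  #((range d.m ×ˢ Ioo (bl σ d.L) (bl σ d.R)).filter fun p =>
    lv σ d.L d.R Q p.1 p.2 ∧ dt p.1 p.2 = p.1)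

/-! ### Classes of links -/

section
variable (σ : ℕ) (d : Run) (Q : ℕ → Finset ℤ) (sd : ℕ → ℤ → Prop)

/-- Links over a mark. -/
noncomputable def up (t : ℕ) : ℕ :=
  #((d.U t).filter fun u => ∃ z ∈ Q t, d.x t < z ∧ z < d.rp t u)

/-- Links inside one item. -/
noncomputable def int (t : ℕ) : ℕ :=
  #((d.U t).filter fun u => bl σ (d.lp (t + 1) u) = bl σ (d.rp t u))

/-- Items of the gap next to the access that hold an upper node. -/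
noncomputable def own (t : ℕ) : Finset ℤ :=
  ((d.U t).image (bl σ)).filter fun B =>
    bl σ (d.x t) < B ∧ conn (lv σ d.L d.R Q) t (bl σ (d.x t) + 1) B

/-- Items met that die from the left and carry the label `F`. -/
noncomputable def met (lab : ℕ → ℤ → ℕ × ℤ) (F : ℕ × ℤ) (t : ℕ) : Finset ℤ :=
  if t < d.m then ((d.P t).image (bl σ)).filter fun B =>
    lv σ d.L d.R Q t B ∧ sd t B ∧ lab t B = F else ∅

/-- Events of colour `κ`. -/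
noncomputable def ev (lab : ℕ → ℤ → ℕ × ℤ) (κ t : ℕ) : Finset ℤ :=
  (own σ d Q t).filter fun B => sd t B ∧ #((d.P t).filter fun y => bl σ y = B) = κ ∧
    (∃ B0 ∈ met σ d Q sd lab (lab t B) t, B0 < B) ∧ ∃ B1 ∈ met σ d Q sd lab (lab t B) t, B < B1

/-- The frame of label `F` and colour `κ`. -/
noncomputable def frame (dt : ℕ → ℤ → ℕ) (lab : ℕ → ℤ → ℕ × ℤ) (F : ℕ × ℤ) (κ : ℕ) : Fr where
  m := d.m
  b0 := bl σ d.L
  b1 := bl σ d.R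
  al := fun t B => t < d.m ∧ lv σ d.L d.R Q t B ∧ sd t B ∧ lab t B = F
  dt := dt
  met := met σ d Q sd lab F
  ev := fun t => (ev σ d Q sd lab κ t).filter fun B => lab t B = F

end

-- deps:
def S_TWO : Prop :=
  ∀ d : Run, d.OK → ∀ t < d.m, ∀ u ∈ d.U t,
    (d.lp (t + 1) u ∈ d.P t ∧ d.lp (t + 1) u < u ∧ ∀ y ∈ d.P t, y < u → y ≤ d.lp (t + 1) u) ∧
    (∀ y ∈ d.P t, u < y → d.rp t u ≤ y) ∧
    (d.rp t (d.lp (t + 1) u) = u ∧ d.rp (t + 1) u = d.rp t u ∧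
      d.lp (t + 1) (d.lp (t + 1) u) = d.x t ∧ d.rp (t + 1) (d.lp (t + 1) u) = d.rp t u) ∧
    ∀ v ∈ d.U t, u < v → d.rp t u ≤ d.lp (t + 1) v

-- deps: TWO
def S_PAIR : Prop :=
  ∀ d : Run, d.OK → ∀ t < d.m, ∀ (φ φ' g : ℤ → ℕ) (G : ℕ) (c : ℤ → Prop), Monotone g →
    (∀ v, g v ≤ G) →
    (∀ u ∈ d.U t, φ' (d.lp (t + 1) u) + φ' u + (if c u then 1 else 0) + 2 * g (d.lp (t + 1) u) ≤
      φ (d.lp (t + 1) u) + φ u + 2 * g (d.rp t u)) →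
    (∀ v, d.x t < v → v < d.R → d.rp (t + 1) v = d.rp t v →
      (d.lp (t + 1) v = d.lp t v ∨ (d.lp t v < d.x t ∧ d.lp (t + 1) v = d.x t)) → φ' v ≤ φ v) →
    ∑ v ∈ Ioo (d.x t) d.R, φ' v + #((d.U t).filter c) ≤ ∑ v ∈ Ioo (d.x t) d.R, φ v + 2 * G

-- deps: TWO
def S_FRAME : Prop :=
  ∀ (σ : ℕ) (d : Run) (Q : ℕ → Finset ℤ) (dt : ℕ → ℤ → ℕ) (sd : ℕ → ℤ → Prop)
    (lab : ℕ → ℤ → ℕ × ℤ) (F : ℕ × ℤ) (κ : ℕ), d.OK → (∀ i < d.m, d.x i ∈ Q i) →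
    Lives d.m (lv σ d.L d.R Q) dt sd lab → (frame σ d Q sd dt lab F κ).OK

-- deps: IF FRAME
def S_EV : Prop :=
  ∃ C : ℕ, ∀ (K σ : ℕ) (d : Run) (Q : ℕ → Finset ℤ) (dt : ℕ → ℤ → ℕ) (sd : ℕ → ℤ → Prop)
    (lab : ℕ → ℤ → ℕ × ℤ) (κ : ℕ), d.OK → (∀ i < d.m, d.x i ∈ Q i) →
    Lives d.m (lv σ d.L d.R Q) dt sd lab →
    K * ∑ t ∈ range d.m, #(ev σ d Q sd lab κ t) ≤
      6 * d.NR + 2 * K * d.m + C * (K + 1) ^ 6 * inst σ d Q dt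

-- deps: EV
def S_LEFT : Prop :=
  ∀ K : ℕ, ∃ C : ℕ, ∀ (σ : ℕ) (d : Run) (Q : ℕ → Finset ℤ) (dt : ℕ → ℤ → ℕ)
    (sd : ℕ → ℤ → Prop) (lab : ℕ → ℤ → ℕ × ℤ), d.OK → (∀ i < d.m, d.x i ∈ Q i) →
    Lives d.m (lv σ d.L d.R Q) dt sd lab →
    K * ∑ t ∈ range d.m, #((own σ d Q t).filter fun B => sd t B) ≤
      7 * d.NR + C * (d.m + inst σ d Q dt)

-- deps: TWO EMIR
def S_RIGHT : Prop :=
  ∀ (K σ : ℕ) (d : Run) (Q : ℕ → Finset ℤ) (dt : ℕ → ℤ → ℕ) (sd : ℕ → ℤ → Prop)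
    (lab : ℕ → ℤ → ℕ × ℤ), d.OK → (∀ i < d.m, d.x i ∈ Q i) →
    Lives d.m (lv σ d.L d.R Q) dt sd lab →
    K * ∑ t ∈ range d.m, #((own σ d Q t).filter fun B => ¬ sd t B) ≤
      d.NR + K * (2 * d.m + (K + 1) * inst σ d Q dt + ∑ t ∈ range d.m, up d.mir (mq Q) t)

-- deps: TWO PAIR EMIR
def S_UP : Prop :=
  ∀ (d : Run) (c Z : ℕ) (Q : ℕ → Finset ℤ), d.OK → Marks d.L d.R d.m d.x c Z Q →
    ∑ t ∈ range d.m, up d Q t ≤ Nat.size c * ((d.R - d.L).toNat + 5 * d.m)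

-- deps: TWO PAIR EMIR
def S_INT : Prop :=
  ∀ (σ : ℕ) (d : Run), d.OK →
    ∑ t ∈ range d.m, int σ d t ≤ (σ + 1) * (2 * (d.R - d.L).toNat + 6 * d.m)

-- deps: TWO
def S_CLS : Prop :=
  ∀ (σ : ℕ) (d : Run) (Q : ℕ → Finset ℤ), d.OK → ∀ t < d.m, d.x t ∈ Q t →
    #(d.U t) ≤ up d Q t + int σ d t + 4 + 2 * #(own σ d Q t)

-- deps: LAZY KILL DTH LEFT RIGHT UP INT CLS EMIR
def S_LINK : Prop :=
  ∃ C : ℕ, ∀ (σ c Z Y : ℕ) (d : Run) (Q : ℕ → Finset ℤ), d.OK → d.L < d.R →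
    Marks d.L d.R d.m d.x c Z Q → (c + 2) ^ 2 * ((d.R - d.L).toNat + Z) ≤ 2 ^ σ * Y →
    100 * d.LamR ≤ d.NR + C * ((σ + Nat.size c + 1) * ((d.R - d.L).toNat + d.m) + Y)

-- deps: LINK LAZY ALGA BRG TURN EMIR (and UM.q_REC, UM.Avg.ed_mem, UM.Avg.total)
def S_FIN : Prop :=
  ∃ C : ℕ, ∀ (n u m : ℕ) (T : BT) (a y : ℕ → ℕ), T.keys = List.range' 1 n →
    (∀ i < m, 1 ≤ a i ∧ a i ≤ n) → (∀ i < m, wset a i (y i) ≤ 2 ^ u) →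
    ∑ i ∈ range m, Nat.dist (a i) (y i) ≤ 2 ^ u * (n + m) →
    cost T ((List.range m).map a) ≤ C * (u + 1) * (n + m)

end Pool.Agent.P.MP_119182_lc.IT
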